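import Mathlib

set_option autoImplicit false

open Filter Topology Finset

namespace Pool.Agent.P.MP_77a832_co

/-- indicator of positivity, valued in the integers -/
noncomputable def ind (x : ℝ) : ℤ := if 0 < x then 1 else 0

lemma ind_pos {x : ℝ} (h : 0 < x) : ind x = 1 := by simp [ind, h]
lemma ind_nonpos {x : ℝ} (h : x ≤ 0) : ind x = 0 := by simp [ind, not_lt.mpr h]
lemma ind_neg {x : ℝ} (h : x < 0) : ind x = 0 := ind_nonpos h.le

lemma ind_mul {a x : ℝ} (ha : 0 < a) : ind (a * x) = ind x := by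
  unfold ind
  simp [mul_pos_iff_of_pos_left ha]

lemma ind_congr {x y : ℝ} (h : 0 < x ↔ 0 < y) : ind x = ind y := by
  unfold ind
  simp [h]

/-- the sign of `A + η B` for small positive `η` -/
def Lex (A B y : ℝ) : Prop :=
  (A ≠ 0 → (y ≠ 0 ∧ ind y = ind A)) ∧ (A = 0 → ((y = 0 ↔ B = 0) ∧ ind y = ind B))

lemma ev_cont (f : ℝ → ℝ) (hf : Continuous f) (h0 : f 0 ≠ 0) :
    ∀ᶠ η in 𝓝[>] (0:ℝ), f η ≠ 0 ∧ ind (f η) = ind (f 0) := by
  apply Filter.Eventually.filter_mono nhdsWithin_le_nhds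
  rcases lt_or_gt_of_ne h0 with h | h
  · have := (hf.tendsto 0).eventually (gt_mem_nhds h)
    filter_upwards [this] with η hη
    exact ⟨hη.ne, by rw [ind_neg hη, ind_neg h]⟩
  · have := (hf.tendsto 0).eventually (lt_mem_nhds h)
    filter_upwards [this] with η hη
    exact ⟨hη.ne', by rw [ind_pos hη, ind_pos h]⟩

lemma ev_lex1 (A B : ℝ) : ∀ᶠ η in 𝓝[>] (0:ℝ), Lex A B (A + η * B) := by
  by_cases hA : A = 0
  · filter_upwards [self_mem_nhdsWithin] with η hη
    have hη' : 0 < η := hη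
    refine ⟨fun h => absurd hA h, fun _ => ?_⟩
    subst hA
    simp only [zero_add]
    exact ⟨by simp [hη'.ne'], ind_mul hη'⟩
  · have := ev_cont (fun η => A + η * B) (by fun_prop) (by simpa using hA)
    filter_upwards [this] with η hη
    refine ⟨fun _ => by simpa using hη, fun h => absurd h hA⟩

lemma ev_lex {I : Type} [Finite I] (A B : I → ℝ) :
    ∀ᶠ η in 𝓝[>] (0:ℝ), ∀ i, Lex (A i) (B i) (A i + η * B i) :=
  Filter.eventually_all.mpr fun i => ev_lex1 (A i) (B i)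

lemma Lex.ne {A B y : ℝ} (h : Lex A B y) (hA : A ≠ 0) : y ≠ 0 := (h.1 hA).1
lemma Lex.indA {A B y : ℝ} (h : Lex A B y) (hA : A ≠ 0) : ind y = ind A := (h.1 hA).2
lemma Lex.zero_iff {A B y : ℝ} (h : Lex A B y) (hA : A = 0) : y = 0 ↔ B = 0 := (h.2 hA).1
lemma Lex.indB {A B y : ℝ} (h : Lex A B y) (hA : A = 0) : ind y = ind B := (h.2 hA).2

lemma Lex.eq_zero_iff {A B y : ℝ} (h : Lex A B y) : y = 0 ↔ A = 0 ∧ B = 0 := by
  by_cases hA : A = 0
  · simp [h.zero_iff hA, hA]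
  · simp [h.ne hA, hA]

lemma Lex.ind_eq {A B y : ℝ} (h : Lex A B y) :
    ind y = ind A + if A = 0 then ind B else 0 := by
  by_cases hA : A = 0
  · rw [h.indB hA, if_pos hA, hA, ind_nonpos le_rfl, zero_add]
  · rw [h.indA hA, if_neg hA, add_zero]

lemma Lex.pos {A B y : ℝ} (h : Lex A B y) (hA : 0 < A ∨ (A = 0 ∧ 0 < B)) : 0 < y := by
  have : ind y = 1 := by
    rcases hA with hA | ⟨hA, hB⟩
    · rw [h.indA hA.ne', ind_pos hA]
    · rw [h.indB hA, ind_pos hB]
  by_contra hy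
  rw [ind_nonpos (not_lt.mp hy)] at this
  exact absurd this (by norm_num)

lemma ex_small {p : ℝ → Prop} (h : ∀ᶠ η in 𝓝[>] (0:ℝ), p η) : ∃ η, 0 < η ∧ p η := by
  obtain ⟨η, h1, h2⟩ := (h.and self_mem_nhdsWithin).exists
  exact ⟨η, h2, h1⟩

/-- counting the naturals below `a` that are at most a given integer bound -/
lemma sum_fin_lt (a : ℕ) (m : ℤ) (h0 : 0 ≤ m) (h1 : m ≤ a) :
    ∑ i : Fin a, (if ((i : ℕ) : ℤ) < m then (1:ℤ) else 0) = m := by
  induction a with
  | zero => simp; omega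
  | succ a ih =>
    rw [Fin.sum_univ_castSucc]
    simp only [Fin.val_castSucc, Fin.val_last]
    by_cases hm : m ≤ a
    · rw [ih hm, if_neg (by omega), add_zero]
    · have hm' : m = a + 1 := by push_cast at h1; omega
      rw [if_pos (by omega)]
      have : ∀ i : Fin a, (if ((i : ℕ) : ℤ) < m then (1:ℤ) else 0) = 1 := by
        intro i
        have := i.2
        rw [if_pos (by omega)]
      simp [this, hm']

lemma sum_fin_ge (a : ℕ) (m : ℤ) (h0 : 0 ≤ m) (h1 : m ≤ a) :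
    ∑ i : Fin a, (if m ≤ ((i : ℕ) : ℤ) then (1:ℤ) else 0) = a - m := by
  have h := sum_fin_lt a m h0 h1
  have : ∑ i : Fin a, ((if m ≤ ((i : ℕ) : ℤ) then (1:ℤ) else 0)
      + (if ((i : ℕ) : ℤ) < m then (1:ℤ) else 0)) = a := by
    have : ∀ i : Fin a, ((if m ≤ ((i : ℕ) : ℤ) then (1:ℤ) else 0)
      + (if ((i : ℕ) : ℤ) < m then (1:ℤ) else 0)) = 1 := by
      intro i
      by_cases hi : m ≤ ((i : ℕ) : ℤ)
      · rw [if_pos hi, if_neg (by omega)]; rfl
      · rw [if_neg hi, if_pos (by omega)]; rfl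
    simp [this]
  rw [Finset.sum_add_distrib, h] at this
  omega

/-- `ind` of an integer cast -/
lemma ind_int (m : ℤ) : ind (m : ℝ) = if 0 < m then 1 else 0 := by
  unfold ind
  simp

lemma ind_half (m : ℤ) : ind ((m : ℝ) + 1 / 2) = if 0 ≤ m then 1 else 0 := by
  unfold ind
  have : (0 < (m : ℝ) + 1 / 2) ↔ 0 ≤ m := by
    constructor
    · intro h
      by_contra hm
      have : m ≤ -1 := by omega
      have : (m : ℝ) ≤ -1 := by exact_mod_cast this
      linarith
    · intro h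
      have : (0 : ℝ) ≤ m := by exact_mod_cast h
      linarith
  simp only [this]

lemma half_ne (m : ℤ) : (m : ℝ) + 1 / 2 ≠ 0 := by
  intro h
  have : ((2 * m + 1 : ℤ) : ℝ) = 0 := by push_cast; linarith
  have : 2 * m + 1 = 0 := by exact_mod_cast this
  omega

end Pool.Agent.P.MP_77a832_co
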