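import Mathlib
import Pool.Agent.P.MP_77a832_co.Basic

set_option autoImplicit false

open Filter Topology Finset

namespace Pool.Agent.P.MP_77a832_co

/-- A segment configuration of length `S`: equal end columns at positions `0` and `S`,
interior points, and lines each through two points in consecutive positions. -/
structure Seg (a : ℕ) (S : ℤ) where
  κ0 : Type
  κi : Type
  E : Type
  [f0 : Fintype κ0]
  [fi : Fintype κi]
  [fE : Fintype E]
  c0 : κ0 → ℝ
  pos : κi → ℤ
  ci : κi → ℝ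
  Z : κi → Prop
  s : κi → ℝ
  σ : ℝ
  w : E → κi
  u : E → κi ⊕ κ0
  j : E → ℕ
  al : E → ℝ
  be : E → ℝ
  K : ℤ
  hσ : 0 < σ
  hpos0 : ∀ q, 0 < pos q
  hposS : ∀ q, pos q < S
  hw : ∀ e, Z (w e)
  hu : ∀ e q, u e = Sum.inl q → ¬ Z q
  hpos : ∀ e, Sum.elim pos (fun _ => S) (u e) = pos (w e) + 1
  hj : ∀ e, j e < a
  hbe : ∀ e, be e = s (w e) + j e * σ
  hL : ∀ e q, al e - c0 q ≠ 0
  hI : ∀ e q, al e + pos q * be e - ci q = 0 ↔ q = w e ∨ Sum.inl q = u e
  hR : ∀ e q, al e + S * be e - c0 q = 0 ↔ Sum.inr q = u e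
  hK : ∀ e, ∑ q, ind (al e - c0 q) + ∑ q, ind (al e + pos q * be e - ci q)
    + ∑ q, ind (al e + S * be e - c0 q) = K
  hinj : ∀ e e', w e = w e' → j e = j e' → e = e'

attribute [instance] Seg.f0 Seg.fi Seg.fE

lemma lex_sum {I Q : Type} [Fintype I] [Fintype Q] (m : I → ℤ) (d : I → Q → ℝ)
    (hd : ∀ i q, 0 < d i q) (B y : I → Q → ℝ)
    (h : ∀ i q, Lex (d i q * m i) (B i q) (y i q)) :
    ∑ i, ∑ q, ind (y i q) = (∑ i, if 0 < m i then (1:ℤ) else 0) * Fintype.card Q
      + ∑ i, if m i = 0 then ∑ q, ind (B i q) else 0 := by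
  rw [Finset.sum_mul, ← Finset.sum_add_distrib]
  refine Finset.sum_congr rfl fun i _ => ?_
  have h1 : ∀ q, ind (y i q) = (if 0 < m i then (1:ℤ) else 0)
      + if m i = 0 then ind (B i q) else 0 := by
    intro q
    rw [(h i q).ind_eq, ind_mul (hd i q), ind_int]
    congr 1
    have : d i q * (m i : ℝ) = 0 ↔ m i = 0 := by
      simp [(hd i q).ne']
    simp only [this]
  simp only [h1, Finset.sum_add_distrib, Finset.sum_const, Finset.card_univ, nsmul_eq_mul]
  congr 1
  · ring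
  · split_ifs <;> simp

lemma lex_zero {d B y : ℝ} {m : ℤ} (hd : 0 < d) (h : Lex (d * m) B y) :
    y = 0 ↔ m = 0 ∧ B = 0 := by
  rw [h.eq_zero_iff]
  simp [hd.ne']

lemma sum_fin_lt' (a : ℕ) (m : ℤ) (h0 : 0 ≤ m) (h1 : m ≤ a) (p : Fin a → Prop) [DecidablePred p]
    (hp : ∀ i : Fin a, p i ↔ ((i : ℕ) : ℤ) < m) :
    ∑ i : Fin a, (if p i then (1:ℤ) else 0) = m := by
  rw [← sum_fin_lt a m h0 h1]
  exact Finset.sum_congr rfl fun i _ => by simp only [hp i]

lemma sum_fin_ge' (a : ℕ) (m : ℤ) (h0 : 0 ≤ m) (h1 : m ≤ a) (p : Fin a → Prop) [DecidablePred p]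
    (hp : ∀ i : Fin a, p i ↔ m ≤ ((i : ℕ) : ℤ)) :
    ∑ i : Fin a, (if p i then (1:ℤ) else 0) = a - m := by
  rw [← sum_fin_ge a m h0 h1]
  exact Finset.sum_congr rfl fun i _ => by simp only [hp i]

lemma sum_ite_one {I : Type} [Fintype I] (p : I → Prop) [DecidablePred p] (f : I → ℤ) (i0 : I)
    (hp : ∀ i, p i ↔ i = i0) : ∑ i, (if p i then f i else 0) = f i0 := by
  rw [Finset.sum_eq_single i0]
  · rw [if_pos ((hp i0).2 rfl)]
  · intro i _ hi
    rw [if_neg (fun h => hi ((hp i).1 h))]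
  · simp

lemma sum_ite_none {I : Type} [Fintype I] (p : I → Prop) [DecidablePred p] (f : I → ℤ)
    (hp : ∀ i, ¬ p i) : ∑ i, (if p i then f i else 0) = 0 :=
  Finset.sum_eq_zero fun i _ => if_neg (hp i)

theorem seg_base (a : ℕ) : ∃ G : Seg a 2, Fintype.card G.κ0 = a ∧ Fintype.card G.κi = 1 ∧
    Fintype.card G.E = a := by
  refine ⟨{
    κ0 := Fin a
    κi := Unit
    E := Fin a
    c0 := fun i => (i : ℕ)
    pos := fun _ => 1
    ci := fun _ => (a - 1/2) / 2
    Z := fun _ => True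
    s := fun _ => -((a - 1/2) / 2)
    σ := 1
    w := fun _ => ()
    u := fun j => Sum.inr j
    j := fun j => j
    al := fun j => a - 1/2 - (j : ℕ)
    be := fun j => -((a - 1/2) / 2) + (j : ℕ)
    K := a
    hσ := one_pos
    hpos0 := fun _ => one_pos
    hposS := fun _ => by norm_num
    hw := fun _ => trivial
    hu := fun e q h => by simp at h
    hpos := fun e => by simp
    hj := fun e => e.2
    hbe := fun e => by simp
    hL := ?_
    hI := ?_
    hR := ?_
    hK := ?_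
    hinj := fun e e' _ h => Fin.ext h }, by simp, by simp, by simp⟩
  · intro e q
    have := half_ne ((a : ℤ) - 1 - (e : ℕ) - (q : ℕ))
    push_cast at this
    intro h
    apply this
    linarith
  · intro e q
    simp only [true_or, iff_true]
    push_cast
    ring
  · intro e q
    have : (a : ℝ) - 1/2 - (e : ℕ) + ((2:ℤ):ℝ) * (-((a - 1/2) / 2) + (e : ℕ)) - (q : ℕ)
        = ((e : ℕ) : ℝ) - (q : ℕ) := by push_cast; ring
    rw [this, sub_eq_zero, Sum.inr.injEq, Nat.cast_inj, Fin.ext_iff, eq_comm]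
  · intro e
    have he := e.2
    have h1 : ∀ q : Fin a, ind ((a : ℝ) - 1/2 - (e : ℕ) - (q : ℕ))
        = if ((q : ℕ) : ℤ) < a - (e : ℕ) then 1 else 0 := by
      intro q
      have := ind_half ((a : ℤ) - 1 - (e : ℕ) - (q : ℕ))
      push_cast at this
      rw [show (a : ℝ) - 1/2 - (e : ℕ) - (q : ℕ) = (a : ℝ) - 1 - (e : ℕ) - (q : ℕ) + 1/2 by ring,
        this]
      congr 1
      apply propext
      omega
    have h2 : ∀ q : Fin a, ind ((a : ℝ) - 1/2 - (e : ℕ) + ((2:ℤ):ℝ) * (-((a - 1/2) / 2) + (e : ℕ))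
        - (q : ℕ)) = if ((q : ℕ) : ℤ) < (e : ℕ) then 1 else 0 := by
      intro q
      have := ind_int (((e : ℕ) : ℤ) - (q : ℕ))
      rw [show (a : ℝ) - 1/2 - (e : ℕ) + ((2:ℤ):ℝ) * (-((a - 1/2) / 2) + (e : ℕ)) - (q : ℕ)
        = ((((e : ℕ) : ℤ) - (q : ℕ) : ℤ) : ℝ) by push_cast; ring, this]
      congr 1
      apply propext
      omega
    simp only [h1, h2]
    rw [sum_fin_lt a _ (by omega) (by omega), sum_fin_lt a _ (by omega) (by omega)]
    have : (a : ℝ) - 1/2 - (e : ℕ) + ((1:ℤ):ℝ) * (-((a - 1/2) / 2) + (e : ℕ)) - (a - 1/2) / 2 = 0 := by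
      push_cast; ring
    simp only [this, ind_nonpos le_rfl]
    simp


/-- twice the slope index of a child line -/
def mm {a : ℕ} (J : Bool × Fin a) : ℤ := 2 * (J.2 : ℕ) + if J.1 then 0 else 1

/-- the shift of a child -/
def sh (S : ℤ) (b : Bool) : ℤ := if b then S else 0

theorem seg_step {a : ℕ} {S : ℤ} (G : Seg a S) (hS : 0 < S) : ∃ H : Seg a (2 * S),
    Fintype.card H.κ0 = a * Fintype.card G.κ0 ∧
    Fintype.card H.κi = Fintype.card G.κ0 + 2 * a * Fintype.card G.κi ∧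
    Fintype.card H.E = 2 * a * Fintype.card G.E := by
  classical
  have hS' : (0:ℝ) < S := by exact_mod_cast hS
  let β0 : Bool × Fin a → ℝ := fun J => -((a - 1/2) / 2) + (mm J : ℝ) / 2
  let off : ℝ := S * ((a - 1/2) / 2)
  let α0 : Bool × Fin a → ℝ := fun J => off - S * β0 J
  let mL : Bool × Fin a → Fin a → ℤ := fun J i => 2 * a - 1 - mm J - 2 * (i : ℕ)
  let mR : Bool × Fin a → Fin a → ℤ := fun J i => mm J - 2 * (i : ℕ)
  let mI : Bool × Fin a → Bool × Fin a → ℤ := fun J J' =>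
    if J'.1 then mm J - mm J' else mm J' - mm J
  let dI : Bool × Fin a → G.κi → ℝ := fun J' q =>
    (if J'.1 then (G.pos q : ℝ) else S - G.pos q) / 2
  have hdI : ∀ J' q, 0 < dI J' q := by
    intro J' q
    have h1 : (0:ℝ) < G.pos q := by exact_mod_cast G.hpos0 q
    have h2 : (G.pos q : ℝ) < S := by exact_mod_cast G.hposS q
    simp only [dI]
    split_ifs <;> linarith
  have e1 := ev_lex (I := ((Bool × Fin a) × G.E) × Fin a × G.κ0)
    (fun x => (S:ℝ) / 2 * (mL x.1.1 x.2.1 : ℤ))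
    (fun x => G.al x.1.2 - sh S x.1.1.1 * G.be x.1.2 - G.c0 x.2.2)
  have e2 := ev_lex (I := ((Bool × Fin a) × G.E) × Fin a × G.κ0)
    (fun x => (S:ℝ) / 2 * (mR x.1.1 x.2.1 : ℤ))
    (fun x => G.al x.1.2 - sh S x.1.1.1 * G.be x.1.2 + 2 * S * G.be x.1.2 - G.c0 x.2.2)
  have e3 := ev_lex (I := ((Bool × Fin a) × G.E) × (Bool × Fin a) × G.κi)
    (fun x => dI x.2.1 x.2.2 * (mI x.1.1 x.2.1 : ℤ))
    (fun x => G.al x.1.2 - sh S x.1.1.1 * G.be x.1.2
      + (G.pos x.2.2 + sh S x.2.1.1) * G.be x.1.2 - G.ci x.2.2)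
  obtain ⟨η, hη, H1, H2, H3⟩ := ex_small (e1.and (e2.and e3))
  let al' : (Bool × Fin a) × G.E → ℝ := fun x => α0 x.1 + η * (G.al x.2 - sh S x.1.1 * G.be x.2)
  let be' : (Bool × Fin a) × G.E → ℝ := fun x => β0 x.1 + η * G.be x.2
  let c0' : Fin a × G.κ0 → ℝ := fun y => (y.1 : ℕ) * S + η * G.c0 y.2
  let pos' : G.κ0 ⊕ ((Bool × Fin a) × G.κi) → ℤ :=
    Sum.elim (fun _ => S) (fun y => G.pos y.2 + sh S y.1.1)
  let ci' : G.κ0 ⊕ ((Bool × Fin a) × G.κi) → ℝ :=
    Sum.elim (fun q => off + η * G.c0 q)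
      (fun y => α0 y.1 + (G.pos y.2 + sh S y.1.1) * β0 y.1 + η * G.ci y.2)
  have L1 : ∀ x (i : Fin a) q, Lex ((S:ℝ) / 2 * (mL x.1 i : ℤ))
      (G.al x.2 - sh S x.1.1 * G.be x.2 - G.c0 q) (al' x - c0' (i, q)) := by
    intro x i q
    convert H1 (x, i, q) using 1
    simp only [al', c0', α0, off, β0, mL]
    push_cast
    ring
  have L2 : ∀ x (i : Fin a) q, Lex ((S:ℝ) / 2 * (mR x.1 i : ℤ))
      (G.al x.2 - sh S x.1.1 * G.be x.2 + 2 * S * G.be x.2 - G.c0 q)
      (al' x + ((2 * S : ℤ) : ℝ) * be' x - c0' (i, q)) := by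
    intro x i q
    convert H2 (x, i, q) using 1
    simp only [al', be', c0', α0, off, β0, mR]
    push_cast
    ring
  have L3 : ∀ x J' q, Lex (dI J' q * (mI x.1 J' : ℤ))
      (G.al x.2 - sh S x.1.1 * G.be x.2 + (G.pos q + sh S J'.1) * G.be x.2 - G.ci q)
      (al' x + (pos' (Sum.inr (J', q)) : ℝ) * be' x - ci' (Sum.inr (J', q))) := by
    intro x J' q
    convert H3 (x, J', q) using 1
    simp only [al', be', pos', ci', α0, off, β0, mI, dI, Sum.elim_inr, sh]
    rcases J' with ⟨b', j'⟩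
    cases b' <;> simp <;> ring
  have L4 : ∀ x q, al' x + (pos' (Sum.inl q) : ℝ) * be' x - ci' (Sum.inl q)
      = η * (G.al x.2 - sh S x.1.1 * G.be x.2 + S * G.be x.2 - G.c0 q) := by
    intro x q
    simp only [al', be', pos', ci', α0, off, β0, Sum.elim_inl]
    ring
  have hmI : ∀ J J', mI J J' = 0 ↔ J' = J := by
    rintro ⟨b, j⟩ ⟨b', j'⟩
    simp only [mI, mm, Prod.mk.injEq, Fin.ext_iff]
    cases b <;> cases b' <;> simp <;> omega
  have hS2 : (0:ℝ) < (S:ℝ) / 2 := by linarith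
  refine ⟨{
    κ0 := Fin a × G.κ0
    κi := G.κ0 ⊕ ((Bool × Fin a) × G.κi)
    E := (Bool × Fin a) × G.E
    c0 := c0'
    pos := pos'
    ci := ci'
    Z := Sum.elim (fun _ => False) (fun y => G.Z y.2)
    s := Sum.elim (fun _ => 0) (fun y => β0 y.1 + η * G.s y.2)
    σ := η * G.σ
    w := fun x => Sum.inr (x.1, G.w x.2)
    u := fun x => Sum.elim (fun q => Sum.inl (Sum.inr (x.1, q)))
      (fun q => if x.1.1 then Sum.inr (x.1.2, q) else Sum.inl (Sum.inl q)) (G.u x.2)
    j := fun x => G.j x.2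
    al := al'
    be := be'
    K := a * Fintype.card G.κ0 + a * Fintype.card G.κi + G.K
    hσ := mul_pos hη G.hσ
    hpos0 := ?_
    hposS := ?_
    hw := fun x => G.hw x.2
    hu := ?_
    hpos := ?_
    hj := fun x => G.hj x.2
    hbe := ?_
    hL := ?_
    hI := ?_
    hR := ?_
    hK := ?_
    hinj := ?_ }, by simp, by simp, by simp⟩
  · rintro (q | ⟨⟨b, j⟩, q⟩)
    · exact hS
    · have := G.hpos0 q
      simp only [pos', Sum.elim_inr, sh]
      split_ifs <;> omega
  · rintro (q | ⟨⟨b, j⟩, q⟩)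
    · simp only [pos', Sum.elim_inl]; omega
    · have := G.hposS q
      simp only [pos', Sum.elim_inr, sh]
      split_ifs <;> omega
  · rintro ⟨⟨b, j⟩, e⟩ q h
    rcases hu : G.u e with q' | q'
    · simp only [hu, Sum.elim_inl, Sum.inl.injEq] at h
      subst h
      exact G.hu e q' hu
    · cases b
      · simp only [hu, Sum.elim_inr] at h
        simp at h
        subst h
        simp
      · simp [hu] at h
  · rintro ⟨⟨b, j⟩, e⟩
    have := G.hpos e
    rcases hu : G.u e with q' | q'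
    · simp only [hu, Sum.elim_inl] at this
      simp only [pos', Sum.elim_inl, Sum.elim_inr]
      omega
    · simp only [hu, Sum.elim_inr] at this
      cases b <;> simp [pos', sh] <;> omega
  · rintro ⟨J, e⟩
    simp only [be', Sum.elim_inr, G.hbe e]
    ring
  · rintro ⟨⟨b, j⟩, e⟩ ⟨i, q⟩ h
    rw [lex_zero hS2 (L1 _ i q)] at h
    obtain ⟨h1, h2⟩ := h
    cases b
    · apply G.hL e q
      simpa [sh] using h2
    · simp [mL, mm] at h1
      omega
  · rintro ⟨⟨b, j⟩, e⟩ (q | ⟨J', q⟩)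
    · rw [L4, mul_eq_zero, or_iff_right hη.ne']
      cases b
      · have := G.hR e q
        simp only [sh, Bool.false_eq_true, if_false, Int.cast_zero, zero_mul, sub_zero, this]
        rcases hu : G.u e with q' | q' <;> simp
      · have := G.hL e q
        simp only [sh, if_true, sub_add_cancel, this]
        rcases hu : G.u e with q' | q' <;> simp
    · rw [lex_zero (hdI _ _) (L3 _ J' q), hmI]
      constructor
      · rintro ⟨rfl, h2⟩
        have h3 : G.al e + G.pos q * G.be e - G.ci q = 0 := by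
          rw [← h2]; ring
        rcases (G.hI e q).1 h3 with h4 | h4
        · left; rw [h4]
        · right; rw [← h4]; rfl
      · intro h
        have h5 : J' = (b, j) ∧ (q = G.w e ∨ Sum.inl q = G.u e) := by
          rcases h with h | h
          · simp only [Sum.inr.injEq, Prod.mk.injEq] at h
            exact ⟨h.1, Or.inl h.2⟩
          · rcases hu : G.u e with q' | q'
            · simp only [hu, Sum.elim_inl, Sum.inl.injEq, Sum.inr.injEq, Prod.mk.injEq] at h
              exact ⟨h.1, Or.inr (by rw [h.2])⟩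
            · cases b <;> simp [hu] at h
        obtain ⟨rfl, h6⟩ := h5
        refine ⟨rfl, ?_⟩
        rw [← (G.hI e q).2 h6]; ring
  · rintro ⟨⟨b, j⟩, e⟩ ⟨i, q⟩
    rw [lex_zero hS2 (L2 _ i q)]
    cases b
    · have : mR (false, j) i ≠ 0 := by simp [mR, mm]; omega
      simp only [this, false_and, false_iff]
      rcases hu : G.u e with q' | q' <;> simp
    · have h1 : mR (true, j) i = 0 ↔ i = j := by
        simp [mR, mm, Fin.ext_iff]; omega
      have h2 : G.al e - sh S true * G.be e + 2 * S * G.be e - G.c0 q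
          = G.al e + S * G.be e - G.c0 q := by
        simp only [sh, if_true]; ring
      simp only [h1, h2, G.hR e q]
      rcases hu : G.u e with q' | q' <;> simp
  · rintro ⟨⟨b, j⟩, e⟩
    have hj := j.2
    have hK := G.hK e
    rw [Fintype.sum_prod_type, Fintype.sum_sum_type, Fintype.sum_prod_type,
      Fintype.sum_prod_type (f := fun q => ind (al' ((b, j), e) + ((2 * S : ℤ) : ℝ) * be' ((b, j), e)
        - c0' q)),
      lex_sum _ _ (fun _ _ => hS2) _ _ (L1 ((b, j), e)),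
      lex_sum _ _ (fun _ _ => hS2) _ _ (L2 ((b, j), e)),
      lex_sum _ _ hdI _ _ (L3 ((b, j), e)), sum_ite_one _ _ (b, j) (hmI _)]
    simp only [L4, ind_mul hη]
    rw [Fintype.sum_prod_type, Fintype.sum_bool]
    have h3 : ∀ q, G.al e - sh S b * G.be e + (G.pos q + sh S b) * G.be e - G.ci q
        = G.al e + G.pos q * G.be e - G.ci q := by intro q; ring
    simp only [h3]
    cases b
    · rw [sum_fin_lt' a (a - 1 - (j : ℕ)) (by omega) (by omega) _
          (by intro i; simp [mL, mm]; omega),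
        sum_ite_one _ _ (⟨a - 1 - j, by omega⟩ : Fin a)
          (by intro i; have := i.2; simp [mL, mm, Fin.ext_iff]; omega),
        sum_fin_lt' a ((j : ℕ) + 1) (by omega) (by omega) (fun i => 0 < mI (false, j) (true, i))
          (by intro i; simp [mI, mm]),
        sum_fin_ge' a ((j : ℕ) + 1) (by omega) (by omega) (fun i => 0 < mI (false, j) (false, i))
          (by intro i; simp [mI, mm]),
        sum_fin_lt' a ((j : ℕ) + 1) (by omega) (by omega) (fun i => 0 < mR (false, j) i)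
          (by intro i; simp [mR, mm]),
        sum_ite_none _ _ (by intro i; simp [mR, mm]; omega), ← hK]
      simp only [sh, Bool.false_eq_true, if_false, Int.cast_zero, zero_mul, sub_zero]
      ring
    · rw [sum_fin_lt' a (a - (j : ℕ)) (by omega) (by omega) _
          (by intro i; simp [mL, mm]; omega),
        sum_ite_none _ _ (by intro i; simp [mL, mm]; omega),
        sum_fin_lt' a (j : ℕ) (by omega) (by omega) (fun i => 0 < mI (true, j) (true, i))
          (by intro i; simp [mI, mm]),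
        sum_fin_ge' a (j : ℕ) (by omega) (by omega) (fun i => 0 < mI (true, j) (false, i))
          (by intro i; simp [mI, mm]),
        sum_fin_lt' a (j : ℕ) (by omega) (by omega) (fun i => 0 < mR (true, j) i)
          (by intro i; simp [mR, mm]),
        sum_ite_one _ _ j (by intro i; simp [mR, mm, Fin.ext_iff]; omega), ← hK]
      have h4 : ∀ q, G.al e - S * G.be e + 2 * S * G.be e - G.c0 q
          = G.al e + S * G.be e - G.c0 q := by intro q; ring
      simp only [sh, if_true, sub_add_cancel, h4]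
      ring
  · rintro ⟨J, e⟩ ⟨J', e'⟩ h1 h2
    simp only [Sum.inr.injEq, Prod.mk.injEq] at h1
    rw [h1.1, G.hinj e e' h1.2 h2]

theorem seg_exists (a R : ℕ) : ∃ G : Seg a (2 ^ (R + 1)),
    Fintype.card G.κ0 = a ^ (R + 1) ∧
    a * Fintype.card G.κi + a ^ (R + 1) = a ^ (R + 1) * 2 ^ (R + 1) ∧
    2 * Fintype.card G.E = (2 * a) ^ (R + 1) := by
  induction R with
  | zero =>
    obtain ⟨G, h1, h2, h3⟩ := seg_base a
    rw [show ((2:ℤ) ^ (0 + 1)) = 2 by norm_num]
    exact ⟨G, by simp [h1], by rw [h2]; ring, by rw [h3]; ring⟩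
  | succ R ih =>
    obtain ⟨G, h1, h2, h3⟩ := ih
    obtain ⟨H, k1, k2, k3⟩ := seg_step G (by positivity)
    rw [show ((2:ℤ) ^ (R + 1 + 1)) = 2 * 2 ^ (R + 1) by ring]
    refine ⟨H, by rw [k1, h1]; ring, ?_, ?_⟩
    · rw [k2, h1]
      calc a * (a ^ (R + 1) + 2 * a * Fintype.card G.κi) + a ^ (R + 1 + 1)
          = 2 * a * (a * Fintype.card G.κi + a ^ (R + 1)) := by ring
        _ = _ := by rw [h2]; ring
    · rw [k3]
      calc 2 * (2 * a * Fintype.card G.E) = 2 * a * (2 * Fintype.card G.E) := by ring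
        _ = _ := by rw [h3]; ring

/-- A grid configuration: points at integer positions in `[-T, T]` of total position zero,
and lines each through a marked point and an unmarked point in the next position. -/
structure Grid (T : ℤ) (a : ℕ) where
  κ : Type
  E : Type
  [fκ : Fintype κ]
  [fE : Fintype E]
  pos : κ → ℤ
  c : κ → ℝ
  Z : κ → Prop
  s : κ → ℝ
  σ : ℝ
  w : E → κ
  u : E → κ
  j : E → ℕ
  al : E → ℝ
  be : E → ℝ
  K : ℤ
  hσ : 0 < σ
  habs : ∀ q, |pos q| ≤ T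
  hsum : ∑ q, pos q = 0
  hw : ∀ e, Z (w e)
  hu : ∀ e, ¬ Z (u e)
  hpos : ∀ e, pos (u e) = pos (w e) + 1
  hj : ∀ e, j e < a
  hbe : ∀ e, be e = s (w e) + j e * σ
  hon : ∀ e q, al e + pos q * be e - c q = 0 ↔ q = w e ∨ q = u e
  hK : ∀ e, ∑ q, ind (al e + pos q * be e - c q) = K
  hinj : ∀ e e', w e = w e' → j e = j e' → e = e'

attribute [instance] Grid.fκ Grid.fE

theorem grid_of_seg {a : ℕ} {S : ℤ} (G : Seg a S) (hS : 0 < S) : ∃ Q : Grid S a,
    Fintype.card Q.κ = 2 * (2 * Fintype.card G.κ0 + Fintype.card G.κi) ∧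
    Fintype.card Q.E = Fintype.card G.E := by
  classical
  let p1 : G.κ0 ⊕ G.κi ⊕ G.κ0 → ℤ := Sum.elim (fun _ => 0) (Sum.elim G.pos (fun _ => S))
  let c1 : G.κ0 ⊕ G.κi ⊕ G.κ0 → ℝ := Sum.elim G.c0 (Sum.elim G.ci G.c0)
  have hp1 : ∀ q, 0 ≤ p1 q ∧ p1 q ≤ S := by
    rintro (q | q | q)
    · simp [p1, hS.le]
    · simp [p1, (G.hpos0 q).le, (G.hposS q).le]
    · simp [p1, hS.le]
  let C : ℝ := 1 + ∑ e, (|G.al e| + S * |G.be e|)
  have hC : ∀ e q, 0 < G.al e + ((-p1 q : ℤ) : ℝ) * G.be e - -C := by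
    intro e q
    have hS' : (0:ℝ) < S := by exact_mod_cast hS
    have h1 : |G.al e| + S * |G.be e| ≤ ∑ e, (|G.al e| + S * |G.be e|) :=
      Finset.single_le_sum (f := fun e => |G.al e| + S * |G.be e|)
        (fun e _ => by positivity) (Finset.mem_univ e)
    have h2 : (0:ℝ) ≤ p1 q := by exact_mod_cast (hp1 q).1
    have h3 : (p1 q : ℝ) ≤ S := by exact_mod_cast (hp1 q).2
    have h4 := neg_abs_le (G.al e)
    have h5 := le_abs_self (G.be e)
    have h6 := abs_nonneg (G.be e)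
    have h7 : (p1 q : ℝ) * G.be e ≤ S * |G.be e| := by nlinarith
    simp only [C]
    push_cast
    linarith
  refine ⟨{
    κ := (G.κ0 ⊕ G.κi ⊕ G.κ0) ⊕ (G.κ0 ⊕ G.κi ⊕ G.κ0)
    E := G.E
    pos := Sum.elim p1 (fun q => -p1 q)
    c := Sum.elim c1 (fun _ => -C)
    Z := Sum.elim (Sum.elim (fun _ => False) (Sum.elim G.Z (fun _ => False))) (fun _ => False)
    s := Sum.elim (Sum.elim (fun _ => 0) (Sum.elim G.s (fun _ => 0))) (fun _ => 0)
    σ := G.σ
    w := fun e => Sum.inl (Sum.inr (Sum.inl (G.w e)))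
    u := fun e => Sum.inl (Sum.inr (G.u e))
    j := G.j
    al := G.al
    be := G.be
    K := G.K + Fintype.card (G.κ0 ⊕ G.κi ⊕ G.κ0)
    hσ := G.hσ
    habs := ?_
    hsum := ?_
    hw := G.hw
    hu := ?_
    hpos := G.hpos
    hj := G.hj
    hbe := G.hbe
    hon := ?_
    hK := ?_
    hinj := ?_ }, by simp; ring, rfl⟩
  · rintro (q | q)
    · simp only [Sum.elim_inl]
      rw [abs_of_nonneg (hp1 q).1]
      exact (hp1 q).2
    · simp only [Sum.elim_inr]
      rw [abs_neg, abs_of_nonneg (hp1 q).1]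
      exact (hp1 q).2
  · rw [Fintype.sum_sum_type]
    simp only [Sum.elim_inl, Sum.elim_inr, Finset.sum_neg_distrib, add_neg_cancel]
  · intro e
    rcases hu : G.u e with q | q
    · exact G.hu e q hu
    · simp
  · rintro e ((q | q | q) | q)
    · have := G.hL e q
      simpa [p1, c1] using this
    · have := G.hI e q
      simpa [p1, c1] using this
    · have := G.hR e q
      simpa [p1, c1] using this
    · have := (hC e q).ne'
      simpa using this
  · intro e
    rw [Fintype.sum_sum_type, Fintype.sum_sum_type, Fintype.sum_sum_type, ← G.hK e]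
    simp only [Sum.elim_inl, Sum.elim_inr, ind_pos (hC e _), p1, c1]
    simp [add_assoc]
  · intro e e' h1 h2
    simp only [Sum.inl.injEq, Sum.inr.injEq] at h1
    exact G.hinj e e' h1 h2

theorem grid_exists (m : ℕ) (hm : 1 ≤ m) : ∃ Q : Grid (2 ^ m) (2 ^ m),
    Fintype.card Q.κ ≤ 6 * (2 ^ m) ^ m ∧ 2 * Fintype.card Q.E = 2 ^ m * (2 ^ m) ^ m := by
  obtain ⟨R, rfl⟩ : ∃ R, m = R + 1 := ⟨m - 1, by omega⟩
  obtain ⟨G, h1, h2, h3⟩ := seg_exists (2 ^ (R + 1)) R
  obtain ⟨Q, k1, k2⟩ := grid_of_seg G (by positivity)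
  refine ⟨Q, ?_, by rw [k2, h3, mul_pow]⟩
  rw [k1, h1]
  have h4 : 2 ^ (R + 1) * Fintype.card G.κi ≤ 2 ^ (R + 1) * (2 ^ (R + 1)) ^ (R + 1) := by
    nlinarith [Nat.zero_le ((2 ^ (R + 1)) ^ (R + 1))]
  have h5 := Nat.le_of_mul_le_mul_left h4 (by positivity)
  omega

end Pool.Agent.P.MP_77a832_co
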