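import Mathlib
import Pool.Agent.P.MP_77a832_co.Inner

set_option autoImplicit false

open Filter Topology Finset

namespace Pool.Agent.P.MP_77a832_co

/-- A configuration of points (affine functionals on the plane of lines) and lines, with an
arithmetic structure on the lines through each marked point. -/
structure Cfg (T : ℤ) where
  ι : Type
  E : Type
  AI : Type
  [fι : Fintype ι]
  [fE : Fintype E]
  [fA : Fintype AI]
  u : ι → ℝ
  v : ι → ℝ
  c : ι → ℝ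
  Z : ι → Prop
  bu : ι → ℝ
  bv : ι → ℝ
  bc : ι → ℝ
  z : E → ι
  p : E → ι
  e : E → ℤ
  r : E → ℝ
  al : E → ℝ
  be : E → ℝ
  K : ℤ
  M : ℕ
  ak : AI → ℤ
  γ : ℤ → ℝ
  hu : ∀ i, 0 < u i
  hdet : ∀ i, Z i → 0 < u i * bv i - v i * bu i
  hz : ∀ x, Z (z x)
  hp : ∀ x, ¬ Z (p x)
  hpu : ∀ x, u (p x) = bu (z x)
  hpv : ∀ x, v (p x) = bv (z x)
  hpc : ∀ x, c (p x) = bc (z x) + r x
  hon : ∀ x i, u i * al x + v i * be x - c i = 0 ↔ i = z x ∨ i = p x
  hK : ∀ x, ∑ i, ind (u i * al x + v i * be x - c i) = K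
  hinj : ∀ x x', z x = z x' → e x = e x' → x = x'
  hak : Function.Injective ak
  hγ : ∀ h h' : ℤ, 0 ≤ h → h < h' → h' < M → γ h < γ h'
  hcomp : ∀ x k (t : ℤ), |t| ≤ T → (0 ≤ ak k + t * e x ∧ ak k + t * e x < M) ∧
    γ (ak k + t * e x) = γ (ak k) + t * r x

attribute [instance] Cfg.fι Cfg.fE Cfg.fA

/-- an integer in range as an element of `Fin M` -/
def toF (M : ℕ) (x : ℤ) (h : 0 ≤ x ∧ x < M) : Fin M := ⟨x.toNat, by omega⟩

lemma toF_val (M : ℕ) (x : ℤ) (h : 0 ≤ x ∧ x < M) : (((toF M x h : Fin M) : ℕ) : ℤ) = x := by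
  simp only [toF]; omega

lemma eq_toF (M : ℕ) (x : ℤ) (h : 0 ≤ x ∧ x < M) (y : Fin M) :
    y = toF M x h ↔ ((y : ℕ) : ℤ) = x := by
  simp only [toF, Fin.ext_iff]; omega

lemma gam_pos {M : ℕ} {γ : ℤ → ℝ} (hγ : ∀ h h' : ℤ, 0 ≤ h → h < h' → h' < M → γ h < γ h')
    {x y : ℤ} (hx : 0 ≤ x ∧ x < M) (hy : 0 ≤ y ∧ y < M) :
    (0 < γ x - γ y ↔ y < x) ∧ (γ x - γ y = 0 ↔ y = x) := by
  rcases lt_trichotomy x y with h | h | h
  · have := hγ x y hx.1 h hy.2
    exact ⟨⟨fun h' => by linarith, fun h' => by omega⟩, ⟨fun h' => by linarith, fun h' => by omega⟩⟩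
  · subst h; simp
  · have := hγ y x hy.1 h hx.2
    exact ⟨⟨fun _ => h, fun _ => by linarith⟩, ⟨fun h' => by linarith, fun h' => by omega⟩⟩

lemma fin_rng {M : ℕ} (h : Fin M) : 0 ≤ ((h : ℕ) : ℤ) ∧ ((h : ℕ) : ℤ) < M := by
  have := h.2; omega

lemma lex_sum1 {M : ℕ} {γ : ℤ → ℝ} (hγ : ∀ h h' : ℤ, 0 ≤ h → h < h' → h' < M → γ h < γ h')
    {x : ℤ} (hx : 0 ≤ x ∧ x < M) {ε b : ℝ} (hε : 0 < ε) (y : Fin M → ℝ)
    (h : ∀ h : Fin M, Lex (ε * (γ x - γ (h : ℕ))) b (y h)) :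
    ∑ h, ind (y h) = x + ind b := by
  have h1 : ∀ i : Fin M, ind (y i) = (if ((i : ℕ) : ℤ) < x then 1 else 0)
      + if i = toF M x hx then ind b else 0 := by
    intro i
    have g := gam_pos hγ hx (fin_rng i)
    rw [(h i).ind_eq, ind_mul hε]
    congr 1
    · unfold ind
      simp only [g.1]
    · simp only [mul_eq_zero, hε.ne', false_or, g.2, eq_toF]
  simp only [h1, Finset.sum_add_distrib]
  rw [sum_fin_lt M x hx.1 hx.2.le]
  simp

lemma lex_sum2 {M : ℕ} {γ : ℤ → ℝ} (hγ : ∀ h h' : ℤ, 0 ≤ h → h < h' → h' < M → γ h < γ h')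
    {x : ℤ} (hx : 0 ≤ x ∧ x < M) {ε b : ℝ} (hε : 0 < ε) (hb : 0 < b) (y : Fin M → ℝ)
    (h : ∀ h : Fin M, Lex (ε * (γ (h : ℕ) - γ x)) b (y h)) :
    ∑ h, ind (y h) = M - x := by
  rw [← sum_fin_ge M x hx.1 hx.2.le]
  refine Finset.sum_congr rfl fun i _ => ?_
  have g := gam_pos hγ (fin_rng i) hx
  rw [(h i).ind_eq, ind_mul hε, ind_pos hb]
  unfold ind
  simp only [mul_eq_zero, hε.ne', false_or, g.1, g.2]
  split_ifs <;> omega

lemma divmod (x ρ N : ℤ) (h0 : 0 ≤ ρ) (h1 : ρ < N) :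
    (x * N + ρ) / N = x ∧ (x * N + ρ) % N = ρ := by
  have hN : N ≠ 0 := by omega
  constructor
  · rw [add_comm, Int.add_mul_ediv_right _ _ hN, Int.ediv_eq_zero_of_lt h0 h1, zero_add]
  · rw [add_comm, Int.add_mul_emod_self_right, Int.emod_eq_of_lt h0 h1]

theorem cfg_base (T : ℤ) (ρ : ℕ) : ∃ G : Cfg T, Fintype.card G.ι = 2 ∧ Fintype.card G.E = 1 ∧
    G.M = ρ ∧ Fintype.card G.AI = ρ := by
  refine ⟨{
    ι := Bool
    E := Unit
    AI := Fin ρ
    u := fun _ => 1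
    v := fun b => if b then 0 else 1
    c := fun _ => 0
    Z := fun b => b = true
    bu := fun _ => 1
    bv := fun _ => 1
    bc := fun _ => 0
    z := fun _ => true
    p := fun _ => false
    e := fun _ => 0
    r := fun _ => 0
    al := fun _ => 0
    be := fun _ => 0
    K := 0
    M := ρ
    ak := fun k => (k : ℕ)
    γ := fun h => h
    hu := fun _ => one_pos
    hdet := by rintro i rfl; simp
    hz := fun _ => rfl
    hp := fun _ => by simp
    hpu := fun _ => rfl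
    hpv := fun _ => by simp
    hpc := fun _ => by simp
    hon := fun _ i => by cases i <;> simp
    hK := fun _ => by simp [ind]
    hinj := fun _ _ _ _ => rfl
    hak := fun k k' h => Fin.ext (by simpa using h)
    hγ := fun h h' _ h1 _ => by exact_mod_cast h1
    hcomp := fun _ k t _ => by simp }, by simp, by simp, rfl, by simp⟩

theorem cfg_step {T : ℤ} {a : ℕ} (G : Cfg T) (Q : Grid T a) (hT : 1 ≤ T) (An Mn : ℕ)
    (hMn : (Mn : ℤ) = An + 2 * T * a) : ∃ H : Cfg T,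
    Fintype.card H.ι = Fintype.card G.ι * (G.M * Fintype.card Q.κ) ∧
    Fintype.card H.E = Fintype.card G.E * (Fintype.card G.AI * Fintype.card Q.E) ∧
    H.M = G.M * Mn ∧ Fintype.card H.AI = Fintype.card G.AI * An := by
  classical
  let D : G.E → ℝ := fun x => G.u (G.z x) * G.bv (G.z x) - G.v (G.z x) * G.bu (G.z x)
  have hD : ∀ x, 0 < D x := fun x => G.hdet _ (G.hz x)
  let mix : ℝ → ℝ → ℝ → ℝ → ℝ := fun ε t f g => (1 + t * ε) * f + t * ε * g
  let U : ℝ → G.ι → Q.κ → ℝ := fun ε i q =>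
    if G.Z i then mix ε (Q.pos q) (G.u i) (G.bu i) else G.u i
  let V : ℝ → G.ι → Q.κ → ℝ := fun ε i q =>
    if G.Z i then mix ε (Q.pos q) (G.v i) (G.bv i) else G.v i
  let C0 : ℝ → G.ι → Fin G.M → Q.κ → ℝ := fun ε i h q =>
    if G.Z i then mix ε (Q.pos q) (G.c i) (G.bc i) + ε * G.γ (h : ℕ) else G.c i - ε * G.γ (h : ℕ)
  let al0 : ℝ → G.E → G.AI → ℝ := fun ε x k =>
    G.al x + ε * G.γ (G.ak k) * (G.bv (G.z x) + G.v (G.z x)) / D x
  let be0 : ℝ → G.E → G.AI → ℝ := fun ε x k =>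
    G.be x - ε * G.γ (G.ak k) * (G.u (G.z x) + G.bu (G.z x)) / D x
  let A0 : ℝ → G.E → G.AI → G.ι → Fin G.M → Q.κ → ℝ := fun ε x k i h q =>
    U ε i q * al0 ε x k + V ε i q * be0 ε x k - C0 ε i h q
  have e1 : ∀ᶠ ε in 𝓝[>] (0:ℝ), ∀ y : G.ι × Q.κ, 0 < U ε y.1 y.2 := by
    refine Filter.eventually_all.mpr fun y => ?_
    have hc : Continuous fun ε => U ε y.1 y.2 := by
      simp only [U, mix]
      split_ifs <;> fun_prop
    have h0 : U 0 y.1 y.2 = G.u y.1 := by simp [U, mix]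
    filter_upwards [ev_cont _ hc (by rw [h0]; exact (G.hu _).ne')] with ε hε
    rw [h0, ind_pos (G.hu _)] at hε
    by_contra hn
    rw [ind_nonpos (not_lt.mp hn)] at hε
    exact absurd hε.2 (by norm_num)
  have e2 : ∀ᶠ ε in 𝓝[>] (0:ℝ), ∀ y : (G.E × G.AI) × G.ι × Fin G.M × Q.κ,
      y.2.1 ≠ G.z y.1.1 → y.2.1 ≠ G.p y.1.1 →
      (A0 ε y.1.1 y.1.2 y.2.1 y.2.2.1 y.2.2.2 ≠ 0 ∧
        ind (A0 ε y.1.1 y.1.2 y.2.1 y.2.2.1 y.2.2.2)
          = ind (G.u y.2.1 * G.al y.1.1 + G.v y.2.1 * G.be y.1.1 - G.c y.2.1)) := by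
    refine Filter.eventually_all.mpr fun y => ?_
    rcases y with ⟨⟨x, k⟩, i, h, q⟩
    by_cases hi : i = G.z x ∨ i = G.p x
    · exact Filter.Eventually.of_forall fun ε h1 h2 => absurd hi (by tauto)
    have hc : Continuous fun ε => A0 ε x k i h q := by
      simp only [A0, U, V, C0, al0, be0, mix]
      split_ifs <;> fun_prop
    have h0 : A0 0 x k i h q = G.u i * G.al x + G.v i * G.be x - G.c i := by
      simp [A0, U, V, C0, al0, be0, mix]
    filter_upwards [ev_cont _ hc (by rw [h0, Ne, G.hon]; exact hi)] with ε hε _ _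
    rw [h0] at hε
    exact hε
  obtain ⟨ε, hε, hU, hA⟩ := ex_small (e1.and e2)
  let Cc : ℝ := 1 + ∑ y : Q.E, |Q.be y - ε * Q.al y|
  have hCc : ∀ y, 0 < Q.be y - ε * Q.al y + Cc := by
    intro y
    have h1 : |Q.be y - ε * Q.al y| ≤ ∑ y : Q.E, |Q.be y - ε * Q.al y| :=
      Finset.single_le_sum (f := fun y => |Q.be y - ε * Q.al y|)
        (fun _ _ => abs_nonneg _) (Finset.mem_univ y)
    have h2 := neg_abs_le (Q.be y - ε * Q.al y)
    simp only [Cc]
    linarith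
  let al1 : G.E → Q.E → ℝ := fun x y =>
    (ε * Q.al y * G.bv (G.z x) - (Q.be y - ε * Q.al y) * G.v (G.z x)) / D x
  let be1 : G.E → Q.E → ℝ := fun x y =>
    (G.u (G.z x) * (Q.be y - ε * Q.al y) - G.bu (G.z x) * (ε * Q.al y)) / D x
  let C1 : G.ι → Q.κ → ℝ := fun i q => if G.Z i then ε * Q.c q else -Cc
  let B1 : G.E → Q.E → G.ι → Q.κ → ℝ := fun x y i q =>
    U ε i q * al1 x y + V ε i q * be1 x y - C1 i q
  have e3 := ev_lex (I := (G.E × G.AI × Q.E) × G.ι × Fin G.M × Q.κ)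
    (fun y => A0 ε y.1.1 y.1.2.1 y.2.1 y.2.2.1 y.2.2.2) (fun y => B1 y.1.1 y.1.2.2 y.2.1 y.2.2.2)
  have e4 := ev_lex (I := Fin (G.M * Mn) × Fin (G.M * Mn))
    (fun y => G.γ (((y.2 : ℕ) : ℤ) / Mn) - G.γ (((y.1 : ℕ) : ℤ) / Mn))
    (fun y => Q.σ * (((((y.2 : ℕ) : ℤ) % Mn : ℤ) : ℝ) - ((((y.1 : ℕ) : ℤ) % Mn : ℤ) : ℝ)))
  obtain ⟨η, hη, H3, H4⟩ := ex_small (e3.and e4)
  let val : G.E × G.AI × Q.E → G.ι × Fin G.M × Q.κ → ℝ := fun X I =>
    U ε I.1 I.2.2 * (al0 ε X.1 X.2.1 + η * al1 X.1 X.2.2)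
      + V ε I.1 I.2.2 * (be0 ε X.1 X.2.1 + η * be1 X.1 X.2.2)
      - (C0 ε I.1 I.2.1 I.2.2 + η * C1 I.1 I.2.2)
  have L : ∀ x k y i h q, Lex (A0 ε x k i h q) (B1 x y i q) (val (x, k, y) (i, h, q)) := by
    intro x k y i h q
    convert H3 ((x, k, y), i, h, q) using 1
    simp only [val, A0, B1]
    ring
  have hPz : ∀ x, G.u (G.z x) * G.al x + G.v (G.z x) * G.be x - G.c (G.z x) = 0 :=
    fun x => (G.hon x _).2 (Or.inl rfl)
  have hBz : ∀ x, G.bu (G.z x) * G.al x + G.bv (G.z x) * G.be x - G.bc (G.z x) = G.r x := by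
    intro x
    have := (G.hon x _).2 (Or.inr rfl)
    rw [G.hpu, G.hpv, G.hpc] at this
    linarith
  have P0 : ∀ x k, G.u (G.z x) * al0 ε x k + G.v (G.z x) * be0 ε x k - G.c (G.z x)
      = ε * G.γ (G.ak k) := by
    intro x k
    have h1 := (hD x).ne'
    have h2 : (G.u (G.z x) * G.bv (G.z x) - G.v (G.z x) * G.bu (G.z x)) * (D x)⁻¹ = 1 :=
      mul_inv_cancel₀ h1
    simp only [al0, be0]
    linear_combination hPz x + ε * G.γ (G.ak k) * h2
  have B0 : ∀ x k, G.bu (G.z x) * al0 ε x k + G.bv (G.z x) * be0 ε x k - G.bc (G.z x)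
      = G.r x - ε * G.γ (G.ak k) := by
    intro x k
    have h1 := (hD x).ne'
    have h2 : (G.u (G.z x) * G.bv (G.z x) - G.v (G.z x) * G.bu (G.z x)) * (D x)⁻¹ = 1 :=
      mul_inv_cancel₀ h1
    simp only [al0, be0]
    linear_combination hBz x - ε * G.γ (G.ak k) * h2
  have P1 : ∀ x y, G.u (G.z x) * al1 x y + G.v (G.z x) * be1 x y = ε * Q.al y := by
    intro x y
    have h1 := (hD x).ne'
    simp only [al1, be1]
    field_simp
    simp only [D]
    ring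
  have Bb1 : ∀ x y, G.bu (G.z x) * al1 x y + G.bv (G.z x) * be1 x y = Q.be y - ε * Q.al y := by
    intro x y
    have h1 := (hD x).ne'
    simp only [al1, be1]
    field_simp
    simp only [D]
    ring
  have Az : ∀ x k h q, A0 ε x k (G.z x) h q
      = ε * (G.γ (G.ak k + Q.pos q * G.e x) - G.γ (h : ℕ)) := by
    intro x k h q
    rw [(G.hcomp x k _ (Q.habs q)).2]
    simp only [A0, U, V, C0, mix, if_pos (G.hz x)]
    linear_combination (1 + Q.pos q * ε) * P0 x k + Q.pos q * ε * B0 x k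
  have Bz : ∀ x y q, B1 x y (G.z x) q = ε * (Q.al y + Q.pos q * Q.be y - Q.c q) := by
    intro x y q
    simp only [B1, U, V, C1, mix, if_pos (G.hz x)]
    linear_combination (1 + Q.pos q * ε) * P1 x y + Q.pos q * ε * Bb1 x y
  have Ap : ∀ x k h q, A0 ε x k (G.p x) h q = ε * (G.γ (h : ℕ) - G.γ (G.ak k)) := by
    intro x k h q
    simp only [A0, U, V, C0, if_neg (G.hp x), G.hpu, G.hpv, G.hpc]
    linear_combination B0 x k
  have Bp : ∀ x y q, B1 x y (G.p x) q = Q.be y - ε * Q.al y + Cc := by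
    intro x y q
    simp only [B1, U, V, C1, if_neg (G.hp x), G.hpu, G.hpv]
    linear_combination Bb1 x y
  have hzp : ∀ x, G.p x ≠ G.z x := fun x h => G.hp x (h ▸ G.hz x)
  have hk0 : ∀ (x : G.E) k, 0 ≤ G.ak k ∧ G.ak k < G.M := by
    intro x k
    simpa using (G.hcomp x k 0 (by simp; omega)).1
  have hρ : ∀ (j0 : Fin An) (y : Q.E) (t : ℤ), |t| ≤ T →
      0 ≤ T * a + (j0 : ℕ) + t * Q.j y ∧ T * a + (j0 : ℕ) + t * Q.j y < Mn := by
    intro j0 y t ht
    have h1 : ((j0 : ℕ) : ℤ) < An := by exact_mod_cast j0.2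
    have h2 : (Q.j y : ℤ) < a := by exact_mod_cast Q.hj y
    have h3 : (0:ℤ) ≤ Q.j y := by positivity
    have h4 := abs_le.mp ht
    have h5 : (0:ℤ) ≤ (j0 : ℕ) := by positivity
    constructor <;> nlinarith
  have hjM : ∀ y : Q.E, (Q.j y : ℤ) < Mn := by
    intro y
    have h2 : (Q.j y : ℤ) < a := by exact_mod_cast Q.hj y
    have h3 : (0:ℤ) ≤ Q.j y := by positivity
    have h4 : (0:ℤ) ≤ An := by positivity
    nlinarith
  refine ⟨{
    ι := G.ι × Fin G.M × Q.κ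
    E := G.E × G.AI × Q.E
    AI := G.AI × Fin An
    u := fun I => U ε I.1 I.2.2
    v := fun I => V ε I.1 I.2.2
    c := fun I => C0 ε I.1 I.2.1 I.2.2 + η * C1 I.1 I.2.2
    Z := fun I => G.Z I.1 ∧ Q.Z I.2.2
    bu := fun I => mix ε (Q.pos I.2.2 + 1) (G.u I.1) (G.bu I.1)
    bv := fun I => mix ε (Q.pos I.2.2 + 1) (G.v I.1) (G.bv I.1)
    bc := fun I => mix ε (Q.pos I.2.2 + 1) (G.c I.1) (G.bc I.1)
      + ε * (G.γ (I.2.1 : ℕ) + η * (Q.c I.2.2 + Q.s I.2.2))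
    z := fun X => (G.z X.1, toF G.M _ (G.hcomp X.1 X.2.1 _ (Q.habs (Q.w X.2.2))).1, Q.w X.2.2)
    p := fun X => (G.z X.1, toF G.M _ (G.hcomp X.1 X.2.1 _ (Q.habs (Q.u X.2.2))).1, Q.u X.2.2)
    e := fun X => G.e X.1 * Mn + Q.j X.2.2
    r := fun X => ε * (G.r X.1 + η * (Q.j X.2.2 * Q.σ))
    al := fun X => al0 ε X.1 X.2.1 + η * al1 X.1 X.2.2
    be := fun X => be0 ε X.1 X.2.1 + η * be1 X.1 X.2.2
    K := (G.M * Fintype.card Q.κ) * G.K + Q.K + Fintype.card Q.κ * G.M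
    M := G.M * Mn
    ak := fun k => G.ak k.1 * Mn + (T * a + (k.2 : ℕ))
    γ := fun n => ε * (G.γ (n / Mn) + η * (Q.σ * ((n % Mn : ℤ) : ℝ)))
    hu := fun I => hU (I.1, I.2.2)
    hdet := ?_
    hz := fun X => ⟨G.hz _, Q.hw _⟩
    hp := fun X h => Q.hu _ h.2
    hpu := ?_
    hpv := ?_
    hpc := ?_
    hon := ?_
    hK := ?_
    hinj := ?_
    hak := ?_
    hγ := ?_
    hcomp := ?_ }, by simp, by simp, rfl, by simp⟩
  · rintro ⟨i, h, q⟩ ⟨h1, -⟩
    have := mul_pos hε (G.hdet i h1)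
    simp only [U, V, mix, if_pos h1]
    refine lt_of_lt_of_eq this ?_
    ring
  · rintro ⟨x, k, y⟩
    simp only [U, if_pos (G.hz x), Q.hpos]
    push_cast
    rfl
  · rintro ⟨x, k, y⟩
    simp only [V, if_pos (G.hz x), Q.hpos]
    push_cast
    rfl
  · rintro ⟨x, k, y⟩
    simp only [C0, C1, if_pos (G.hz x), toF_val]
    rw [(G.hcomp x k _ (Q.habs _)).2, (G.hcomp x k _ (Q.habs _)).2]
    have h1 := (Q.hon y _).2 (Or.inl rfl)
    have h2 := (Q.hon y _).2 (Or.inr rfl)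
    have h3 := Q.hbe y
    rw [Q.hpos] at h2 ⊢
    push_cast at h2 ⊢
    linear_combination ε * η * (h1 - h2 + h3)
  · rintro ⟨x, k, y⟩ ⟨i, h, q⟩
    change val (x, k, y) (i, h, q) = 0 ↔ _
    rw [(L x k y i h q).eq_zero_iff]
    simp only [Prod.mk.injEq, eq_toF]
    by_cases hz : i = G.z x
    · subst hz
      rw [Az, Bz]
      simp only [mul_eq_zero, hε.ne', false_or, Q.hon, true_and,
        (gam_pos G.hγ (G.hcomp x k _ (Q.habs q)).1 (fin_rng h)).2]
      constructor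
      · rintro ⟨h1, rfl | rfl⟩
        · exact Or.inl ⟨h1, rfl⟩
        · exact Or.inr ⟨h1, rfl⟩
      · rintro (⟨h1, rfl⟩ | ⟨h1, rfl⟩)
        · exact ⟨h1, Or.inl rfl⟩
        · exact ⟨h1, Or.inr rfl⟩
    · simp only [hz, false_and, or_self, iff_false, not_and]
      by_cases hp : i = G.p x
      · subst hp
        intro _
        rw [Bp]
        exact (hCc y).ne'
      · intro h1
        exact absurd h1 (hA ((x, k), i, h, q) hz hp).1
  · rintro ⟨x, k, y⟩
    change ∑ I, ind (val (x, k, y) I) = _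
    rw [Fintype.sum_prod_type]
    have h1 : ∀ i, ∑ J : Fin G.M × Q.κ, ind (val (x, k, y) (i, J))
        = (G.M * Fintype.card Q.κ) * ind (G.u i * G.al x + G.v i * G.be x - G.c i)
          + ((if i = G.z x then Fintype.card Q.κ * G.ak k + Q.K else 0)
          + (if i = G.p x then Fintype.card Q.κ * (G.M - G.ak k) else 0)) := by
      intro i
      by_cases hz : i = G.z x
      · subst hz
        rw [if_pos rfl, if_neg (hzp x).symm, hPz, ind_nonpos le_rfl, Fintype.sum_prod_type_right]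
        have h2 : ∀ q, ∑ h : Fin G.M, ind (val (x, k, y) (G.z x, h, q))
            = G.ak k + Q.pos q * G.e x + ind (Q.al y + Q.pos q * Q.be y - Q.c q) := by
          intro q
          rw [← ind_mul hε, ← Bz x]
          refine lex_sum1 G.hγ (G.hcomp x k _ (Q.habs q)).1 hε _ fun h => ?_
          rw [← Az]
          exact L x k y _ h q
        simp only [h2, Finset.sum_add_distrib, ← Finset.sum_mul, Q.hsum, Q.hK]
        simp
      · by_cases hp : i = G.p x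
        · subst hp
          rw [if_neg hz, if_pos rfl, (G.hon x _).2 (Or.inr rfl), ind_nonpos le_rfl,
            Fintype.sum_prod_type_right]
          have h2 : ∀ q, ∑ h : Fin G.M, ind (val (x, k, y) (G.p x, h, q)) = G.M - G.ak k := by
            intro q
            refine lex_sum2 G.hγ (hk0 x k) hε (hCc y) _ fun h => ?_
            rw [← Ap x k h q, ← Bp x y q]
            exact L x k y _ h q
          simp [h2, mul_sub]
        · rw [if_neg hz, if_neg hp]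
          have h2 : ∀ J : Fin G.M × Q.κ, ind (val (x, k, y) (i, J))
              = ind (G.u i * G.al x + G.v i * G.be x - G.c i) := by
            rintro ⟨h, q⟩
            have h3 := hA ((x, k), i, h, q) hz hp
            rw [(L x k y i h q).indA h3.1, h3.2]
          simp [h2]
    simp only [h1, Finset.sum_add_distrib, ← Finset.mul_sum, G.hK]
    simp
    ring
  · rintro ⟨x, k, y⟩ ⟨x', k', y'⟩ h1 h2
    simp only [Prod.mk.injEq, eq_toF, toF_val] at h1 h2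
    obtain ⟨g1, g2, g3⟩ := h1
    have d1 := divmod (G.e x) (Q.j y) Mn (by positivity) (hjM y)
    have d2 := divmod (G.e x') (Q.j y') Mn (by positivity) (hjM y')
    rw [h2] at d1
    have hx : x = x' := G.hinj x x' g1 (by rw [← d1.1, d2.1])
    have hy : y = y' := Q.hinj y y' g3 (by exact_mod_cast d1.2.symm.trans d2.2)
    subst hx hy
    have hk : k = k' := G.hak (by omega)
    rw [hk]
  · rintro ⟨k, j0⟩ ⟨k', j0'⟩ h
    simp only at h
    have hb : ∀ j : Fin An, 0 ≤ T * a + ((j : ℕ) : ℤ) ∧ T * a + ((j : ℕ) : ℤ) < Mn := by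
      intro j
      have h1 : ((j : ℕ) : ℤ) < An := by exact_mod_cast j.2
      have h5 : (0:ℤ) ≤ (j : ℕ) := by positivity
      have h6 : (0:ℤ) ≤ T * a := by positivity
      constructor <;> nlinarith
    have d1 := divmod (G.ak k) _ Mn (hb j0).1 (hb j0).2
    have d2 := divmod (G.ak k') _ Mn (hb j0').1 (hb j0').2
    rw [h] at d1
    have hk : k = k' := G.hak (d1.1.symm.trans d2.1)
    have hj : j0 = j0' := Fin.ext (by have := d1.2.symm.trans d2.2; omega)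
    rw [hk, hj]
  · intro h h' h0 h1 h2
    have hM : (0:ℤ) < Mn := by
      by_contra hn
      have : Mn = 0 := by omega
      rw [this] at h2
      simp at h2
      omega
    have h4 := H4 (toF _ h ⟨h0, h1.trans h2⟩, toF _ h' ⟨h0.trans h1.le, h2⟩)
    simp only [toF_val] at h4
    have h5 : h / Mn ≤ h' / Mn := Int.ediv_le_ediv hM h1.le
    have h6 : 0 ≤ h / Mn := Int.ediv_nonneg h0 hM.le
    have h7 : h' / Mn < G.M := Int.ediv_lt_of_lt_mul hM (by push_cast at h2; exact h2)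
    have h8 := h4.pos (by
      rcases h5.lt_or_eq with h9 | h9
      · left
        exact sub_pos.mpr (G.hγ _ _ h6 h9 h7)
      · right
        refine ⟨by rw [h9, sub_self], mul_pos Q.hσ (sub_pos.mpr ?_)⟩
        have g1 := Int.emod_add_mul_ediv h Mn
        have g2 := Int.emod_add_mul_ediv h' Mn
        rw [h9] at g1
        have : h % Mn < h' % Mn := by omega
        exact_mod_cast this)
    apply mul_lt_mul_of_pos_left _ hε
    linarith
  · rintro ⟨x, k, y⟩ ⟨k', j0⟩ t ht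
    obtain ⟨⟨c1, c2⟩, c3⟩ := G.hcomp x k' t ht
    have r1 := hρ j0 y t ht
    have r0 := hρ j0 y 0 (by simp; omega)
    rw [zero_mul, add_zero] at r0
    have e0 : G.ak k' * Mn + (T * a + (j0 : ℕ)) + t * (G.e x * Mn + Q.j y)
        = (G.ak k' + t * G.e x) * Mn + (T * a + (j0 : ℕ) + t * Q.j y) := by ring
    have d1 := divmod (G.ak k' + t * G.e x) _ Mn r1.1 r1.2
    have d0 := divmod (G.ak k') _ Mn r0.1 r0.2
    simp only [e0, d1.1, d1.2, d0.1, d0.2, c3]
    refine ⟨⟨by have := r1.1; positivity, ?_⟩, ?_⟩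
    · push_cast
      have hM : (0:ℤ) ≤ Mn := by positivity
      nlinarith [r1.2]
    · push_cast
      ring

theorem cfg_iter {T : ℤ} {a : ℕ} (Q : Grid T a) (hT : 1 ≤ T) (An Mn : ℕ)
    (hMn : (Mn : ℤ) = An + 2 * T * a) (ρ t : ℕ) : ∃ G : Cfg T,
    Fintype.card G.ι = ρ ^ t * (2 * ∏ s ∈ range t, (Mn ^ s * Fintype.card Q.κ)) ∧
    Fintype.card G.E = ρ ^ t * ∏ s ∈ range t, (An ^ s * Fintype.card Q.E) ∧
    G.M = ρ * Mn ^ t ∧ Fintype.card G.AI = ρ * An ^ t := by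
  induction t with
  | zero => simpa using cfg_base T ρ
  | succ t ih =>
    obtain ⟨G, h1, h2, h3, h4⟩ := ih
    obtain ⟨H, k1, k2, k3, k4⟩ := cfg_step G Q hT An Mn hMn
    refine ⟨H, ?_, ?_, ?_, ?_⟩
    · rw [k1, h1, h3, Finset.prod_range_succ]; ring
    · rw [k2, h2, h4, Finset.prod_range_succ]; ring
    · rw [k3, h3]; ring
    · rw [k4, h4]; ring

end Pool.Agent.P.MP_77a832_co
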