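import Mathlib
import Pool.Agent.P.MP_77a832_co.Outer

set_option autoImplicit false

open Filter Topology Finset

namespace Pool.Agent.P.MP_77a832_co

/-- `n` indexed points and `f` lines missing all points, each with `k` points below it,
different lines cutting off different sets. -/
structure Sys (n : ℕ) (k : ℤ) (f : ℕ) where
  ι : Type
  E : Type
  [fι : Fintype ι]
  [fE : Fintype E]
  x : ι → ℝ
  y : ι → ℝ
  al : E → ℝ
  be : E → ℝ
  hn : Fintype.card ι = n
  hf : Fintype.card E = f
  hne : ∀ e i, al e + be e * x i - y i ≠ 0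
  hk : ∀ e, ∑ i, ind (al e + be e * x i - y i) = k
  hinj : ∀ e e', (∀ i, ind (al e + be e * x i - y i) = ind (al e' + be e' * x i - y i)) → e = e'

attribute [instance] Sys.fι Sys.fE

lemma ind_eq_one {x : ℝ} : ind x = 1 ↔ 0 < x := by
  unfold ind
  split_ifs with h <;> simp [h]

lemma ind_eq_zero {x : ℝ} : ind x = 0 ↔ x ≤ 0 := by
  unfold ind
  split_ifs with h
  · simpa using h
  · simpa using h

lemma ind_nonneg (x : ℝ) : 0 ≤ ind x := by
  unfold ind
  split_ifs <;> simp

lemma ind_le_one (x : ℝ) : ind x ≤ 1 := by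
  unfold ind
  split_ifs <;> simp

theorem sys_of_cfg {T : ℤ} (G : Cfg T) (hT : 1 ≤ T) (hA : Nonempty G.AI) :
    Nonempty (Sys (Fintype.card G.ι) (G.K + 1) (Fintype.card G.E)) := by
  classical
  let D : G.E → ℝ := fun x => G.u (G.z x) * G.v (G.p x) - G.v (G.z x) * G.u (G.p x)
  have hD : ∀ x, 0 < D x := by
    intro x
    simp only [D, G.hpu, G.hpv]
    exact G.hdet _ (G.hz x)
  let da : G.E → ℝ := fun x => (G.v (G.p x) + G.v (G.z x)) / D x
  let db : G.E → ℝ := fun x => -(G.u (G.p x) + G.u (G.z x)) / D x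
  have hz1 : ∀ x, G.u (G.z x) * da x + G.v (G.z x) * db x = 1 := by
    intro x
    have h1 := (hD x).ne'
    simp only [da, db]
    field_simp
    simp only [D]
    ring
  have hp1 : ∀ x, G.u (G.p x) * da x + G.v (G.p x) * db x = -1 := by
    intro x
    have h1 := (hD x).ne'
    simp only [da, db]
    field_simp
    simp only [D]
    ring
  obtain ⟨η, hη, H⟩ := ex_small (ev_lex (I := G.E × G.ι)
    (fun y => G.u y.2 * G.al y.1 + G.v y.2 * G.be y.1 - G.c y.2)
    (fun y => G.u y.2 * da y.1 + G.v y.2 * db y.1))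
  have hzp : ∀ x, G.p x ≠ G.z x := fun x h => G.hp x (h ▸ G.hz x)
  have hval : ∀ x i, G.al x + η * da x + (G.be x + η * db x) * (G.v i / G.u i) - G.c i / G.u i
      = (G.u i)⁻¹ * (G.u i * G.al x + G.v i * G.be x - G.c i
        + η * (G.u i * da x + G.v i * db x)) := by
    intro x i
    have := (G.hu i).ne'
    field_simp
    ring
  have hind : ∀ x i, ind (G.al x + η * da x + (G.be x + η * db x) * (G.v i / G.u i)
      - G.c i / G.u i) = ind (G.u i * G.al x + G.v i * G.be x - G.c i)
        + if i = G.z x then 1 else 0 := by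
    intro x i
    rw [hval, ind_mul (inv_pos.mpr (G.hu i)), (H (x, i)).ind_eq]
    simp only [G.hon]
    by_cases hz : i = G.z x
    · subst hz
      simp [hz1, ind_pos]
    · by_cases hp : i = G.p x
      · subst hp
        simp [hp1, hz, ind_neg]
      · simp [hz, hp]
  have key : ∀ x x', (∀ i, ind (G.u i * G.al x + G.v i * G.be x - G.c i)
        + (if i = G.z x then 1 else 0) = ind (G.u i * G.al x' + G.v i * G.be x' - G.c i)
        + (if i = G.z x' then 1 else 0)) →
      0 ≤ G.u (G.z x) * (G.al x' - G.al x) + G.v (G.z x) * (G.be x' - G.be x) ∧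
      G.u (G.p x) * (G.al x' - G.al x) + G.v (G.p x) * (G.be x' - G.be x) ≤ 0 := by
    intro x x' h
    have a1 := (G.hon x _).2 (Or.inl rfl)
    have a2 := (G.hon x _).2 (Or.inr rfl)
    constructor
    · have h1 := h (G.z x)
      rw [a1, ind_nonpos le_rfl, if_pos rfl] at h1
      by_cases hz : G.z x = G.z x'
      · have a3 := (G.hon x' _).2 (Or.inl hz)
        linarith
      · rw [if_neg hz, add_zero, zero_add, eq_comm, ind_eq_one] at h1
        linarith
    · have h1 := h (G.p x)
      rw [a2, ind_nonpos le_rfl, if_neg (hzp x)] at h1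
      have h2 := ind_nonneg (G.u (G.p x) * G.al x' + G.v (G.p x) * G.be x' - G.c (G.p x))
      have h3 : ind (G.u (G.p x) * G.al x' + G.v (G.p x) * G.be x' - G.c (G.p x)) = 0 := by
        split_ifs at h1 <;> omega
      rw [ind_eq_zero] at h3
      linarith
  have key2 : ∀ x (da db : ℝ), 0 ≤ G.u (G.z x) * da + G.v (G.z x) * db →
      G.u (G.p x) * da + G.v (G.p x) * db ≤ 0 → db ≤ 0 := by
    intro x da db h1 h2
    have h3 := mul_nonneg (G.hu (G.p x)).le h1
    have h4 := mul_nonneg (G.hu (G.z x)).le (neg_nonneg.mpr h2)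
    have h5 := hD x
    simp only [D] at h5
    by_contra hn
    have := mul_pos h5 (not_le.mp hn)
    nlinarith
  refine ⟨{
    ι := G.ι
    E := G.E
    x := fun i => G.v i / G.u i
    y := fun i => G.c i / G.u i
    al := fun x => G.al x + η * da x
    be := fun x => G.be x + η * db x
    hn := rfl
    hf := rfl
    hne := ?_
    hk := ?_
    hinj := ?_ }⟩
  · intro x i
    rw [hval, mul_ne_zero_iff]
    refine ⟨(inv_pos.mpr (G.hu i)).ne', fun h => ?_⟩
    rw [(H (x, i)).eq_zero_iff] at h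
    obtain ⟨h1, h2⟩ := h
    rcases (G.hon x i).1 h1 with rfl | rfl
    · simp [hz1] at h2
    · simp [hp1] at h2
  · intro x
    simp only [hind, Finset.sum_add_distrib, G.hK]
    simp
  · intro x x' h
    simp only [hind] at h
    obtain ⟨k1, k2⟩ := key x x' h
    obtain ⟨k3, k4⟩ := key x' x (fun i => (h i).symm)
    have b1 := key2 x _ _ k1 k2
    have b2 := key2 x' _ _ k3 k4
    have hbe : G.be x' = G.be x := by linarith
    rw [hbe, sub_self, mul_zero, add_zero] at k1 k3
    have c1 := (mul_nonneg_iff_of_pos_left (G.hu _)).1 k1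
    have c2 := (mul_nonneg_iff_of_pos_left (G.hu _)).1 k3
    have hal : G.al x' = G.al x := by linarith
    have hz : G.z x = G.z x' := by
      have := (G.hon x _).2 (Or.inl rfl)
      rw [← hal, ← hbe, G.hon] at this
      rcases this with h1 | h1
      · exact h1
      · exact absurd (h1 ▸ G.hz x) (G.hp x')
    have hp : G.p x = G.p x' := by
      have := (G.hon x _).2 (Or.inr rfl)
      rw [← hal, ← hbe, G.hon] at this
      rcases this with h1 | h1
      · exact absurd (h1 ▸ G.hz x') (G.hp x)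
      · exact h1
    have hr : G.r x = G.r x' := by
      have g1 := G.hpc x
      have g2 := G.hpc x'
      rw [hz, hp] at g1
      linarith
    obtain ⟨k⟩ := hA
    have g1 := G.hcomp x k 1 (by simpa using hT)
    have g2 := G.hcomp x' k 1 (by simpa using hT)
    have g3 := (gam_pos G.hγ g1.1 g2.1).2.1 (by rw [g1.2, g2.2, hr, sub_self])
    exact G.hinj x x' hz (by omega)

lemma Sys.k_le {n f : ℕ} {k : ℤ} (S : Sys n k f) (hf : 0 < f) : 0 ≤ k ∧ k ≤ n := by
  obtain ⟨e⟩ : Nonempty S.E := Fintype.card_pos_iff.mp (by rw [S.hf]; exact hf)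
  have h1 := Finset.sum_nonneg (s := Finset.univ)
    fun i _ => ind_nonneg (S.al e + S.be e * S.x i - S.y i)
  have h2 := Finset.sum_le_sum (s := Finset.univ)
    fun i _ => ind_le_one (S.al e + S.be e * S.x i - S.y i)
  rw [S.hk e] at h1 h2
  exact ⟨h1, by simpa [S.hn] using h2⟩

theorem Sys.pad {n f : ℕ} {k : ℤ} (S : Sys n k f) (d d' : ℕ) :
    Nonempty (Sys (n + (d + d')) (k + d) f) := by
  classical
  let C : ℝ := 1 + ∑ e, |S.al e|
  have hC : ∀ e, |S.al e| < C := by
    intro e
    have := Finset.single_le_sum (f := fun e => |S.al e|) (fun _ _ => abs_nonneg _)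
      (Finset.mem_univ e)
    simp only [C]
    linarith
  have h1 : ∀ e, 0 < S.al e + S.be e * 0 - -C := by
    intro e
    have := abs_lt.mp (hC e)
    linarith
  have h2 : ∀ e, S.al e + S.be e * 0 - C < 0 := by
    intro e
    have := abs_lt.mp (hC e)
    linarith
  refine ⟨{
    ι := S.ι ⊕ Fin d ⊕ Fin d'
    E := S.E
    x := Sum.elim S.x (fun _ => 0)
    y := Sum.elim S.y (Sum.elim (fun _ => -C) (fun _ => C))
    al := S.al
    be := S.be
    hn := by simp [S.hn]
    hf := S.hf
    hne := ?_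
    hk := ?_
    hinj := fun e e' h => S.hinj e e' fun i => h (Sum.inl i) }⟩
  · rintro e (i | i | i)
    · exact S.hne e i
    · exact (h1 e).ne'
    · exact (h2 e).ne
  · intro e
    rw [Fintype.sum_sum_type, Fintype.sum_sum_type]
    simp only [Sum.elim_inl, Sum.elim_inr, S.hk, ind_pos (h1 e), ind_neg (h2 e)]
    simp

theorem Sys.copies {n f : ℕ} {k : ℤ} (S : Sys n k f) (hk : 0 < k) (q : ℕ) :
    Nonempty (Sys (q * n) k (q * f)) := by
  classical
  let val : ℝ → Fin q × S.E → Fin q × S.ι → ℝ := fun η X I =>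
    (-((X.1 : ℕ) : ℝ) ^ 2 + η ^ 2 * S.al X.2 - η * S.be X.2 * (X.1 : ℕ))
      + (2 * (X.1 : ℕ) + η * S.be X.2) * ((I.1 : ℕ) + η * S.x I.2)
      - (((I.1 : ℕ) : ℝ) ^ 2 + 2 * (I.1 : ℕ) * η * S.x I.2 + η ^ 2 * S.y I.2)
  have e1 : ∀ᶠ η in 𝓝[>] (0:ℝ), ∀ y : (Fin q × S.E) × Fin q × S.ι,
      y.2.1 ≠ y.1.1 → val η y.1 y.2 ≠ 0 ∧ ind (val η y.1 y.2) = 0 := by
    refine Filter.eventually_all.mpr fun y => ?_
    rcases y with ⟨⟨j, e⟩, j', i⟩
    by_cases hj : j' = j
    · exact Filter.Eventually.of_forall fun η h => absurd hj h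
    have hc : Continuous fun η => val η (j, e) (j', i) := by
      simp only [val]
      fun_prop
    have h0 : val 0 (j, e) (j', i) < 0 := by
      have h1 : (((j : ℕ) : ℝ) - (j' : ℕ)) ≠ 0 := by
        rw [sub_ne_zero, Ne, Nat.cast_inj, ← Fin.ext_iff]
        exact fun h => hj h.symm
      have h2 := pow_pos (abs_pos.mpr h1) 2
      rw [sq_abs] at h2
      simp only [val]
      nlinarith
    filter_upwards [ev_cont _ hc h0.ne] with η hη _
    rw [ind_neg h0] at hη
    exact hη
  obtain ⟨η, hη, H⟩ := ex_small e1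
  have hsame : ∀ j e i, val η (j, e) (j, i) = η ^ 2 * (S.al e + S.be e * S.x i - S.y i) := by
    intro j e i
    simp only [val]
    ring
  have hind : ∀ j e j' i, ind (val η (j, e) (j', i))
      = if j' = j then ind (S.al e + S.be e * S.x i - S.y i) else 0 := by
    intro j e j' i
    split_ifs with hj
    · rw [hj, hsame, ind_mul (by positivity)]
    · exact (H ((j, e), j', i) hj).2
  refine ⟨{
    ι := Fin q × S.ι
    E := Fin q × S.E
    x := fun I => (I.1 : ℕ) + η * S.x I.2
    y := fun I => ((I.1 : ℕ) : ℝ) ^ 2 + 2 * (I.1 : ℕ) * η * S.x I.2 + η ^ 2 * S.y I.2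
    al := fun X => -((X.1 : ℕ) : ℝ) ^ 2 + η ^ 2 * S.al X.2 - η * S.be X.2 * (X.1 : ℕ)
    be := fun X => 2 * (X.1 : ℕ) + η * S.be X.2
    hn := by simp [S.hn]
    hf := by simp [S.hf]
    hne := ?_
    hk := ?_
    hinj := ?_ }⟩
  · rintro ⟨j, e⟩ ⟨j', i⟩
    change val η (j, e) (j', i) ≠ 0
    by_cases hj : j' = j
    · rw [hj, hsame]
      exact mul_ne_zero (by positivity) (S.hne e i)
    · exact (H ((j, e), j', i) hj).1
  · rintro ⟨j, e⟩
    change ∑ I, ind (val η (j, e) I) = k
    rw [Fintype.sum_prod_type_right]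
    simp only [hind]
    simpa using S.hk e
  · rintro ⟨j, e⟩ ⟨j', e'⟩ h
    change ∀ I, ind (val η (j, e) I) = ind (val η (j', e') I) at h
    have hj : j = j' := by
      by_contra hj
      have h1 : ∀ i, ind (S.al e + S.be e * S.x i - S.y i) = 0 := by
        intro i
        have := h (j, i)
        rwa [hind, hind, if_pos rfl, if_neg hj] at this
      have h2 := S.hk e
      simp only [h1, Finset.sum_const_zero] at h2
      omega
    subst hj
    have := S.hinj e e' fun i => by simpa [hind] using h (j, i)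
    rw [this]

theorem Sys.distinct {n f : ℕ} {k : ℤ} (S : Sys n k f) :
    ∃ S' : Sys n k f, Function.Injective S'.y := by
  classical
  let g : S.ι → ℝ := fun i => ((Fintype.equivFin S.ι i : ℕ) : ℝ)
  have hg : Function.Injective g := by
    intro i i' h
    simp only [g, Nat.cast_inj] at h
    exact (Fintype.equivFin S.ι).injective (Fin.ext h)
  have e1 := ev_lex (I := S.E × S.ι) (fun y => S.al y.1 + S.be y.1 * S.x y.2 - S.y y.2)
    (fun y => -g y.2)
  have e2 := ev_lex (I := S.ι × S.ι) (fun y => S.y y.1 - S.y y.2) (fun y => g y.1 - g y.2)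
  obtain ⟨η, hη, H1, H2⟩ := ex_small (e1.and e2)
  have hv : ∀ e i, S.al e + S.be e * S.x i - (S.y i + η * g i)
      = S.al e + S.be e * S.x i - S.y i + η * -g i := by intro e i; ring
  have hind : ∀ e i, ind (S.al e + S.be e * S.x i - (S.y i + η * g i))
      = ind (S.al e + S.be e * S.x i - S.y i) := by
    intro e i
    rw [hv]
    exact (H1 (e, i)).indA (S.hne e i)
  refine ⟨{
    ι := S.ι
    E := S.E
    x := S.x
    y := fun i => S.y i + η * g i
    al := S.al
    be := S.be
    hn := S.hn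
    hf := S.hf
    hne := fun e i => by rw [hv]; exact (H1 (e, i)).ne (S.hne e i)
    hk := fun e => by simp only [hind, S.hk]
    hinj := fun e e' h => S.hinj e e' (by simpa only [hind] using h) }, ?_⟩
  intro i i' h
  have h1 : S.y i - S.y i' + η * (g i - g i') = 0 := by
    simp only at h
    linarith
  have h2 := ((H2 (i, i')).eq_zero_iff.1 h1).2
  exact hg (sub_eq_zero.mp h2)

/-- from one system to every `n ≥ 2k` -/
theorem Sys.spread {n0 f : ℕ} {k0 : ℤ} (S : Sys n0 k0 f) (hf : 0 < f) (n k : ℕ) (hk : 0 < k)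
    (h0 : n0 ≤ k) : n ≥ 2 * k → ∃ S' : Sys n k (n / (2 * k) * f), Function.Injective S'.y := by
  intro hn
  obtain ⟨b1, b2⟩ := S.k_le hf
  obtain ⟨S1⟩ := S.pad ((k : ℤ) - k0).toNat (2 * k - n0 - ((k : ℤ) - k0).toNat)
  rw [show n0 + (((k : ℤ) - k0).toNat + (2 * k - n0 - ((k : ℤ) - k0).toNat)) = 2 * k by omega,
    show k0 + (((k : ℤ) - k0).toNat : ℤ) = k by omega] at S1
  obtain ⟨S2⟩ := S1.copies (by exact_mod_cast hk) (n / (2 * k))
  obtain ⟨S3⟩ := S2.pad 0 (n - n / (2 * k) * (2 * k))
  have := Nat.div_mul_le_self n (2 * k)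
  rw [show n / (2 * k) * (2 * k) + (0 + (n - n / (2 * k) * (2 * k))) = n by omega,
    show (k : ℤ) + ((0 : ℕ) : ℤ) = k by simp] at S3
  exact S3.distinct

end Pool.Agent.P.MP_77a832_co
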