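import Mathlib
import Pool.Agent.P.MP_77a832_co.Sets

set_option autoImplicit false

open Filter Topology Finset

namespace Pool.Agent.P.MP_77a832_co

lemma bern (m s : ℕ) (hm : 1 ≤ m) (hs : s ≤ m) : (4 * m) ^ s ≤ 2 * (4 * m - 2) ^ s := by
  have hm' : (1:ℝ) ≤ m := by exact_mod_cast hm
  have hs' : (s:ℝ) ≤ m := by exact_mod_cast hs
  have h1 := one_add_mul_le_pow (a := -(1 / (2 * m) : ℝ)) (by
    have : (1 / (2 * m) : ℝ) ≤ 1 := by
      rw [div_le_one (by linarith)]; linarith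
    linarith) s
  have h2 : (1/2 : ℝ) ≤ 1 + s * -(1 / (2 * m) : ℝ) := by
    have : (s:ℝ) * (1 / (2 * m)) ≤ 1 / 2 := by
      rw [mul_one_div, div_le_iff₀ (by linarith)]; linarith
    linarith
  have h3 : ((4 * m - 2 : ℕ) : ℝ) = (4 * m) * (1 + -(1 / (2 * m) : ℝ)) := by
    rw [Nat.cast_sub (by omega)]
    push_cast
    field_simp
    ring
  have h4 : (((4 * m) ^ s : ℕ) : ℝ) ≤ ((2 * (4 * m - 2) ^ s : ℕ) : ℝ) := by
    rw [Nat.cast_mul, Nat.cast_pow, Nat.cast_pow, h3, mul_pow]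
    push_cast
    have : (0:ℝ) < (4 * m) ^ s := by positivity
    nlinarith
  exact_mod_cast h4

theorem epoch (m : ℕ) (hm : 2 ≤ m) : ∃ N F : ℕ, 0 < N ∧ N ≤ 2 ^ (7 * m ^ 3) ∧
    N * 2 ^ (m ^ 2) ≤ 2 ^ (5 * m + 1) * F ∧
    ∀ ρ, 1 ≤ ρ → ∃ (n0 : ℕ) (k0 : ℤ), n0 ≤ ρ ^ m * N ∧ Nonempty (Sys n0 k0 (ρ ^ m * F)) := by
  obtain ⟨Q, hκ, hE⟩ := grid_exists m (by omega)
  set D : ℕ := 2 ^ m * 2 ^ m with hD
  have hDpos : 0 < D := by positivity
  refine ⟨2 * ∏ s ∈ range m, ((4 * m * D) ^ s * (6 * (2 ^ m) ^ m)),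
    ∏ s ∈ range m, (((4 * m - 2) * D) ^ s * Fintype.card Q.E), ?_, ?_, ?_, ?_⟩
  · have : 0 < m := by omega
    positivity
  · have h1 : 4 * m * D ≤ 2 ^ (4 * m) := by
      have a1 : m ≤ 2 ^ m := Nat.lt_two_pow_self.le
      have a2 : 4 ≤ 2 ^ m := by
        calc 4 = 2 ^ 2 := by norm_num
          _ ≤ 2 ^ m := Nat.pow_le_pow_right (by norm_num) hm
      calc 4 * m * D ≤ 2 ^ m * 2 ^ m * D := by gcongr
        _ = 2 ^ (4 * m) := by rw [hD]; ring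
    have h2 : 6 * (2 ^ m) ^ m ≤ 2 ^ (2 * m ^ 2) := by
      have a2 : 6 ≤ 2 ^ (m ^ 2) := by
        calc 6 ≤ 2 ^ 3 := by norm_num
          _ ≤ 2 ^ (m ^ 2) := Nat.pow_le_pow_right (by norm_num) (by nlinarith)
      calc 6 * (2 ^ m) ^ m ≤ 2 ^ (m ^ 2) * (2 ^ m) ^ m := by gcongr
        _ = 2 ^ (2 * m ^ 2) := by rw [← pow_mul, ← pow_add]; congr 1; ring
    have h3 : ∏ s ∈ range m, ((4 * m * D) ^ s * (6 * (2 ^ m) ^ m))
        ≤ (2 ^ (6 * m ^ 2)) ^ (range m).card := by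
      apply Finset.prod_le_pow_card
      intro s hs
      have hs' := (Finset.mem_range.mp hs).le
      calc (4 * m * D) ^ s * (6 * (2 ^ m) ^ m) ≤ (2 ^ (4 * m)) ^ s * 2 ^ (2 * m ^ 2) := by gcongr
        _ ≤ (2 ^ (4 * m)) ^ m * 2 ^ (2 * m ^ 2) := by
          gcongr
          exact Nat.one_le_two_pow
        _ = 2 ^ (6 * m ^ 2) := by rw [← pow_mul, ← pow_add]; congr 1; ring
    rw [Finset.card_range, ← pow_mul 2 (6 * m ^ 2)] at h3
    calc _ ≤ 2 * 2 ^ (6 * m ^ 2 * m) := by omega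
      _ = 2 ^ (6 * m ^ 2 * m + 1) := by ring
      _ ≤ _ := Nat.pow_le_pow_right (by norm_num) (by
        have : 1 ≤ m ^ 3 := Nat.one_le_pow _ _ (by omega)
        nlinarith)
  · have h1 : ∏ s ∈ range m, ((4 * m * D) ^ s * (6 * (2 ^ m) ^ m) * 2 ^ m)
        ≤ ∏ s ∈ range m, (2 ^ 5 * (((4 * m - 2) * D) ^ s * Fintype.card Q.E)) := by
      apply Finset.prod_le_prod'
      intro s hs
      have hs' := (Finset.mem_range.mp hs).le
      have b := bern m s (by omega) hs'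
      calc (4 * m * D) ^ s * (6 * (2 ^ m) ^ m) * 2 ^ m
          = (4 * m) ^ s * D ^ s * (6 * (2 ^ m * (2 ^ m) ^ m)) := by rw [mul_pow]; ring
        _ ≤ (2 * (4 * m - 2) ^ s) * D ^ s * (6 * (2 ^ m * (2 ^ m) ^ m)) := by gcongr
        _ = 24 * (((4 * m - 2) * D) ^ s * Fintype.card Q.E) := by rw [← hE, mul_pow]; ring
        _ ≤ _ := by gcongr; norm_num
    rw [Finset.prod_mul_distrib, Finset.prod_mul_distrib (f := fun _ => 2 ^ 5), Finset.prod_const,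
      Finset.prod_const, Finset.card_range, ← pow_mul 2 5] at h1
    rw [pow_succ 2 (5 * m), sq, pow_mul 2 m m]
    nlinarith
  · intro ρ hρ
    obtain ⟨G, g1, g2, g3, g4⟩ := cfg_iter Q (one_le_pow₀ (by norm_num)) ((4 * m - 2) * D)
      (4 * m * D) (by
        rw [Nat.cast_mul (4 * m - 2), Nat.cast_sub (by omega), hD]
        push_cast
        ring) ρ m
    have hA : Nonempty G.AI := by
      rw [← Fintype.card_pos_iff, g4]
      have : 0 < 4 * m - 2 := by omega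
      positivity
    refine ⟨_, _, ?_, g2 ▸ sys_of_cfg G (one_le_pow₀ (by norm_num)) hA⟩
    rw [g1]
    gcongr

lemma exists_step (g : ℕ → ℕ) (k m0 m1 : ℕ) (h0 : g m0 ≤ k) (h1 : m0 ≤ m1) (hb : k < g m1) :
    ∃ m, m0 ≤ m ∧ g m ≤ k ∧ k < g (m + 1) := by
  by_contra hn
  push Not at hn
  have : ∀ m, m0 ≤ m → g m ≤ k := by
    intro m hm
    induction m, hm using Nat.le_induction with
    | base => exact h0
    | succ m hm ih => exact hn m hm ih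
  exact absurd (this m1 h1) (by omega)

lemma exp_bound (m k : ℕ) (hm : 16 ≤ m) (hk : 0 < k) (h : k < 2 ^ (7 * (m + 1) ^ 3)) :
    Real.exp (Real.log k ^ (2 / 3 : ℝ) / 8) * 2 ^ (6 * m + 3) ≤ 2 ^ (m ^ 2) := by
  have hm' : (16:ℝ) ≤ m := by exact_mod_cast hm
  have hk' : (1:ℝ) ≤ k := by exact_mod_cast hk
  have l1 := Real.log_two_gt_d9
  have l2 := Real.log_two_lt_d9
  have h1 : Real.log k ≤ (17 / 10 * (m + 1)) ^ 3 := by
    have a1 : (k:ℝ) ≤ 2 ^ (7 * (m + 1) ^ 3) := by exact_mod_cast h.le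
    have a2 := Real.log_le_log (by linarith) a1
    rw [Real.log_pow] at a2
    push_cast at a2
    have a3 : (0:ℝ) ≤ ((m:ℝ) + 1) ^ 3 := by positivity
    nlinarith
  have h2 : Real.log k ^ (2 / 3 : ℝ) ≤ (17 / 10 * (m + 1)) ^ 2 := by
    calc Real.log k ^ (2 / 3 : ℝ) ≤ ((17 / 10 * ((m:ℝ) + 1)) ^ 3) ^ (2 / 3 : ℝ) :=
          Real.rpow_le_rpow (Real.log_nonneg hk') h1 (by norm_num)
      _ = (17 / 10 * (m + 1)) ^ 2 := by
        rw [← Real.rpow_natCast, ← Real.rpow_mul (by positivity), ← Real.rpow_natCast]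
        norm_num
  have h3 : ∀ j : ℕ, (2:ℝ) ^ j = Real.exp (j * Real.log 2) := by
    intro j
    rw [Real.exp_nat_mul, Real.exp_log (by norm_num)]
  rw [h3, h3, ← Real.exp_add, Real.exp_le_exp]
  push_cast
  have h4 : (0:ℝ) ≤ (m:ℝ) ^ 2 - 6 * m - 3 := by nlinarith
  nlinarith

theorem many (n k : ℕ) (hk : 2 ^ (7 * 16 ^ 3) ≤ k) (hn : 2 * k ≤ n) :
    ∃ (f : ℕ) (S : Sys n k f), Function.Injective S.y ∧
      n * Real.exp (Real.log k ^ (2 / 3 : ℝ) / 8) ≤ f := by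
  have hk0 : 0 < k := lt_of_lt_of_le (Nat.two_pow_pos _) hk
  obtain ⟨m, hm, m1, m2⟩ := exists_step (fun m => 2 ^ (7 * m ^ 3)) k 16 (k + 16) hk (by omega) (by
    calc k < 2 ^ k := Nat.lt_two_pow_self
      _ ≤ 2 ^ (7 * (k + 16) ^ 3) := Nat.pow_le_pow_right (by norm_num) (by
        have : k + 16 ≤ (k + 16) ^ 3 := Nat.le_self_pow (by norm_num) _
        omega))
  obtain ⟨N, F, hN, n1, n2, hS⟩ := epoch m (by omega)
  obtain ⟨ρ, hρ, r1, r2⟩ := exists_step (fun ρ => ρ ^ m * N) k 1 (k + 1)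
    (by simpa using n1.trans m1) (by omega) (by
      have : k + 1 ≤ (k + 1) ^ m := Nat.le_self_pow (by omega) _
      nlinarith)
  obtain ⟨n0, k0, h0, ⟨S⟩⟩ := hS ρ hρ
  have hF : 0 < F := by
    rcases Nat.eq_zero_or_pos F with h | h
    · rw [h, mul_zero] at n2
      have : 0 < N * 2 ^ (m ^ 2) := by positivity
      omega
    · exact h
  obtain ⟨S', hS'⟩ := S.spread (by positivity) n k hk0 (h0.trans r1) hn
  refine ⟨_, S', hS', ?_⟩
  have q1 : 1 ≤ n / (2 * k) := (Nat.one_le_div_iff (by omega)).mpr hn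
  have q2 : n ≤ 4 * (n / (2 * k)) * k := by
    have a1 := Nat.div_add_mod n (2 * k)
    have a2 := Nat.mod_lt n (show 2 * k > 0 by omega)
    nlinarith
  have q3 : k ≤ 2 ^ m * (ρ ^ m * N) := by
    calc k ≤ (ρ + 1) ^ m * N := r2.le
      _ ≤ (2 * ρ) ^ m * N := by gcongr; omega
      _ = _ := by rw [mul_pow, mul_assoc]
  have q4 : n * 2 ^ (m ^ 2) ≤ 2 ^ (6 * m + 3) * (n / (2 * k) * (ρ ^ m * F)) := by
    calc n * 2 ^ (m ^ 2) ≤ 4 * (n / (2 * k)) * (2 ^ m * (ρ ^ m * N)) * 2 ^ (m ^ 2) := by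
          gcongr
          exact q2.trans (by gcongr)
      _ = 4 * (n / (2 * k)) * 2 ^ m * ρ ^ m * (N * 2 ^ (m ^ 2)) := by ring
      _ ≤ 4 * (n / (2 * k)) * 2 ^ m * ρ ^ m * (2 ^ (5 * m + 1) * F) := by gcongr
      _ = _ := by ring
  have q5 : (n:ℝ) * 2 ^ (m ^ 2) ≤ 2 ^ (6 * m + 3) * ((n / (2 * k) * (ρ ^ m * F) : ℕ) : ℝ) := by
    exact_mod_cast q4
  have q6 := exp_bound m k hm hk0 m2
  have q7 : (0:ℝ) < 2 ^ (6 * m + 3) := by positivity
  refine le_of_mul_le_mul_left ?_ q7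
  refine le_trans ?_ q5
  have : (0:ℝ) ≤ n := by positivity
  nlinarith

end Pool.Agent.P.MP_77a832_co
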