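import Mathlib
import Pool.Agent.P.MP_77a832_co.Count

set_option autoImplicit false

open Filter Topology Finset

namespace Pool.Agent.P.MP_77a832_co

/-- the analogue of `Sys` in dimension `d + 1` -/
structure SysD (d n : ℕ) (k : ℤ) (f : ℕ) where
  ι : Type
  E : Type
  [fι : Fintype ι]
  [fE : Fintype E]
  x : ι → Fin d → ℝ
  y : ι → ℝ
  al : E → ℝ
  be : E → Fin d → ℝ
  hn : Fintype.card ι = n
  hf : Fintype.card E = f
  hne : ∀ e i, al e + ∑ j, be e j * x i j - y i ≠ 0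
  hk : ∀ e, ∑ i, ind (al e + ∑ j, be e j * x i j - y i) = k
  hinj : ∀ e e', (∀ i, ind (al e + ∑ j, be e j * x i j - y i)
    = ind (al e' + ∑ j, be e' j * x i j - y i)) → e = e'

attribute [instance] SysD.fι SysD.fE

theorem Sys.toD {n f : ℕ} {k : ℤ} (S : Sys n k f) : Nonempty (SysD 1 n k f) :=
  ⟨{ ι := S.ι
     E := S.E
     x := fun i _ => S.x i
     y := S.y
     al := S.al
     be := fun e _ => S.be e
     hn := S.hn
     hf := S.hf
     hne := by simpa using S.hne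
     hk := by simpa using S.hk
     hinj := by simpa using S.hinj }⟩

theorem SysD.lift {d n f : ℕ} {k : ℤ} (S : SysD d n k f) (N : ℕ) :
    Nonempty (SysD (d + 1) (n + (N + N)) (k + N) ((N + 1) * f)) := by
  classical
  let C : ℝ := 1 + ∑ e, |S.al e|
  have hC : ∀ e, |S.al e| < C := by
    intro e
    have := Finset.single_le_sum (f := fun e => |S.al e|) (fun _ _ => abs_nonneg _)
      (Finset.mem_univ e)
    simp only [C]
    linarith
  have key : ∀ e (m : ℤ), S.al e + C * (2 * m + 1) ≠ 0 ∧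
      ind (S.al e + C * (2 * m + 1)) = if 0 ≤ m then 1 else 0 := by
    intro e m
    have h1 := abs_lt.mp (hC e)
    have h0 : 0 < C := lt_of_le_of_lt (abs_nonneg _) (hC e)
    split_ifs with hm
    · have : (0:ℝ) ≤ m := by exact_mod_cast hm
      have h2 : 0 < S.al e + C * (2 * m + 1) := by nlinarith
      exact ⟨h2.ne', ind_pos h2⟩
    · have h3 : m ≤ -1 := by omega
      have : (m:ℝ) ≤ -1 := by exact_mod_cast h3
      have h2 : S.al e + C * (2 * m + 1) < 0 := by nlinarith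
      exact ⟨h2.ne, ind_neg h2⟩
  let X : S.ι ⊕ Fin N ⊕ Fin N → Fin (d + 1) → ℝ :=
    Sum.elim (fun i => Fin.cons 0 (S.x i))
      (Sum.elim (fun _ => Fin.cons 1 (fun _ => 0)) (fun _ => Fin.cons (-1) (fun _ => 0)))
  let Y : S.ι ⊕ Fin N ⊕ Fin N → ℝ :=
    Sum.elim S.y (Sum.elim (fun l => C * (2 * (l : ℕ) + 1)) (fun l => -(C * (2 * (l : ℕ) + 1))))
  let B : Fin (N + 1) × S.E → Fin (d + 1) → ℝ := fun g => Fin.cons (2 * (g.1 : ℕ) * C) (S.be g.2)
  have v0 : ∀ g e i, S.al e + ∑ j, B (g, e) j * X (Sum.inl i) j - Y (Sum.inl i)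
      = S.al e + ∑ j, S.be e j * S.x i j - S.y i := by
    intro g e i
    simp [X, Y, B, Fin.sum_univ_succ]
  have v1 : ∀ g e l, S.al e + ∑ j, B (g, e) j * X (Sum.inr (Sum.inl l)) j - Y (Sum.inr (Sum.inl l))
      = S.al e + C * (2 * ((((g : ℕ) : ℤ) - (l : ℕ) - 1 : ℤ) : ℝ) + 1) := by
    intro g e l
    simp [X, Y, B, Fin.sum_univ_succ]
    ring
  have v2 : ∀ g e l, S.al e + ∑ j, B (g, e) j * X (Sum.inr (Sum.inr l)) j - Y (Sum.inr (Sum.inr l))
      = S.al e + C * (2 * ((((l : ℕ) : ℤ) - (g : ℕ) : ℤ) : ℝ) + 1) := by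
    intro g e l
    simp [X, Y, B, Fin.sum_univ_succ]
    ring
  have s1 : ∀ (g : Fin (N + 1)) e, ∑ l, ind (S.al e + ∑ j, B (g, e) j * X (Sum.inr (Sum.inl l)) j
      - Y (Sum.inr (Sum.inl l))) = (g : ℕ) := by
    intro g e
    have := g.2
    simp only [v1, (key _ _).2]
    exact sum_fin_lt' N _ (by omega) (by omega) _ (by intro i; omega)
  have s2 : ∀ (g : Fin (N + 1)) e, ∑ l, ind (S.al e + ∑ j, B (g, e) j * X (Sum.inr (Sum.inr l)) j
      - Y (Sum.inr (Sum.inr l))) = N - (g : ℕ) := by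
    intro g e
    have := g.2
    simp only [v2, (key _ _).2]
    exact sum_fin_ge' N _ (by omega) (by omega) _ (by intro i; omega)
  refine ⟨{
    ι := S.ι ⊕ Fin N ⊕ Fin N
    E := Fin (N + 1) × S.E
    x := X
    y := Y
    al := fun g => S.al g.2
    be := B
    hn := by simp [S.hn]
    hf := by simp [S.hf]
    hne := ?_
    hk := ?_
    hinj := ?_ }⟩
  · rintro ⟨g, e⟩ (i | l | l)
    · rw [v0]; exact S.hne e i
    · rw [v1]; exact (key _ _).1
    · rw [v2]; exact (key _ _).1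
  · rintro ⟨g, e⟩
    rw [Fintype.sum_sum_type, Fintype.sum_sum_type, s1, s2]
    simp only [v0, S.hk]
    ring
  · rintro ⟨g, e⟩ ⟨g', e'⟩ h
    have h1 : e = e' := S.hinj e e' fun i => by simpa only [v0] using h (Sum.inl i)
    have h2 : ((g : ℕ) : ℤ) = (g' : ℕ) := by
      rw [← s1 g e, ← s1 g' e']
      exact Finset.sum_congr rfl fun l _ => h _
    rw [h1, show g = g' from Fin.ext (by exact_mod_cast h2)]

theorem SysD.lifts {n f : ℕ} {k : ℤ} (S : SysD 1 n k f) (N r : ℕ) :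
    Nonempty (SysD (r + 1) (n + r * (N + N)) (k + r * N) ((N + 1) ^ r * f)) := by
  induction r with
  | zero => exact ⟨by simpa using S⟩
  | succ r ih =>
    obtain ⟨S1⟩ := ih
    have := S1.lift N
    rwa [show n + r * (N + N) + (N + N) = n + (r + 1) * (N + N) by ring,
      show k + r * N + N = k + ((r + 1 : ℕ) : ℤ) * N by push_cast; ring,
      show (N + 1) * ((N + 1) ^ r * f) = (N + 1) ^ (r + 1) * f by ring] at this

theorem SysD.distinct {d n f : ℕ} {k : ℤ} (S : SysD d n k f) :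
    ∃ S' : SysD d n k f, Function.Injective S'.y := by
  classical
  let g : S.ι → ℝ := fun i => ((Fintype.equivFin S.ι i : ℕ) : ℝ)
  have hg : Function.Injective g := by
    intro i i' h
    simp only [g, Nat.cast_inj] at h
    exact (Fintype.equivFin S.ι).injective (Fin.ext h)
  have e1 := ev_lex (I := S.E × S.ι)
    (fun y => S.al y.1 + ∑ j, S.be y.1 j * S.x y.2 j - S.y y.2) (fun y => -g y.2)
  have e2 := ev_lex (I := S.ι × S.ι) (fun y => S.y y.1 - S.y y.2) (fun y => g y.1 - g y.2)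
  obtain ⟨η, hη, H1, H2⟩ := ex_small (e1.and e2)
  have hv : ∀ e i, S.al e + ∑ j, S.be e j * S.x i j - (S.y i + η * g i)
      = S.al e + ∑ j, S.be e j * S.x i j - S.y i + η * -g i := by intro e i; ring
  have hind : ∀ e i, ind (S.al e + ∑ j, S.be e j * S.x i j - (S.y i + η * g i))
      = ind (S.al e + ∑ j, S.be e j * S.x i j - S.y i) := by
    intro e i
    rw [hv]
    exact (H1 (e, i)).indA (S.hne e i)
  refine ⟨{
    ι := S.ι
    E := S.E
    x := S.x
    y := fun i => S.y i + η * g i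
    al := S.al
    be := S.be
    hn := S.hn
    hf := S.hf
    hne := fun e i => by rw [hv]; exact (H1 (e, i)).ne (S.hne e i)
    hk := fun e => by simp only [hind, S.hk]
    hinj := fun e e' h => S.hinj e e' (by simpa only [hind] using h) }, ?_⟩
  intro i i' h
  have h1 : S.y i - S.y i' + η * (g i - g i') = 0 := by
    simp only at h
    linarith
  have h2 := ((H2 (i, i')).eq_zero_iff.1 h1).2
  exact hg (sub_eq_zero.mp h2)

lemma ev_big (D : ℝ) (hD : 0 < D) : ∃ k0 : ℕ, ∀ k : ℕ, k0 ≤ k → ∀ x : ℝ, (k : ℝ) / 2 ≤ x →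
    D * Real.exp (Real.log k ^ (2 / 3 : ℝ) / 9) ≤ Real.exp (Real.log x ^ (2 / 3 : ℝ) / 8) := by
  have t1 : Tendsto (fun k : ℕ => Real.log k) atTop atTop :=
    Real.tendsto_log_atTop.comp tendsto_natCast_atTop_atTop
  have t2 : Tendsto (fun k : ℕ => Real.log k ^ (2 / 3 : ℝ)) atTop atTop :=
    (tendsto_rpow_atTop (by norm_num)).comp t1
  obtain ⟨k0, hk0⟩ := Filter.eventually_atTop.mp
    ((t1.eventually_ge_atTop 100).and ((t2.eventually_ge_atTop (200 * Real.log D)).and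
      (Filter.eventually_ge_atTop 2)))
  refine ⟨k0, fun k hk x hx => ?_⟩
  obtain ⟨h1, h2, h3⟩ := hk0 k hk
  have h3' : (2:ℝ) ≤ k := by exact_mod_cast h3
  have l2 := Real.log_two_lt_d9
  have h4 : (49 / 50) ^ 3 * Real.log k ≤ Real.log x := by
    have a1 := Real.log_le_log (by linarith) hx
    rw [Real.log_div (by linarith) (by norm_num)] at a1
    linarith
  have h5 : (49 / 50) ^ 2 * Real.log k ^ (2 / 3 : ℝ) ≤ Real.log x ^ (2 / 3 : ℝ) := by
    have a1 := Real.rpow_le_rpow (by positivity) h4 (show (0:ℝ) ≤ 2 / 3 by norm_num)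
    rw [Real.mul_rpow (by positivity) (by linarith), ← Real.rpow_natCast,
      ← Real.rpow_mul (by norm_num)] at a1
    rw [← Real.rpow_natCast]
    convert a1 using 3
    norm_num
  have h6 : 0 ≤ Real.log k ^ (2 / 3 : ℝ) := Real.rpow_nonneg (by linarith) _
  rw [← Real.exp_log hD, ← Real.exp_add, Real.exp_le_exp]
  linarith

theorem manyD (r : ℕ) : ∃ k0 : ℕ, ∀ n k : ℕ, k0 ≤ k → 2 * k ≤ n →
    ∃ (f : ℕ) (S : SysD (r + 1) n k f), Function.Injective S.y ∧
      n * (k:ℝ) ^ r * Real.exp (Real.log k ^ (2 / 3 : ℝ) / 9) ≤ f := by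
  obtain ⟨k1, hk1⟩ := ev_big (2 * (2 * (r + 1)) ^ r) (by positivity)
  obtain ⟨K, hK⟩ : ∃ K : ℕ, ∀ n k : ℕ, K ≤ k → 2 * k ≤ n →
      ∃ (f : ℕ) (S : Sys n k f), Function.Injective S.y ∧
        n * Real.exp (Real.log k ^ (2 / 3 : ℝ) / 8) ≤ f := ⟨_, many⟩
  refine ⟨max k1 (2 * K), fun n k hk hn => ?_⟩
  have b1 : k1 ≤ k := le_of_max_le_left hk
  have b2 : 2 * K ≤ k := le_of_max_le_right hk
  set N := k / (2 * (r + 1)) with hN
  have c1 : 2 * (r + 1) * N ≤ k := Nat.mul_div_le _ _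
  have c2 : k < 2 * (r + 1) * (N + 1) := Nat.lt_mul_div_succ _ (by omega)
  have c3 : 2 * (r * N) ≤ k := by nlinarith
  obtain ⟨f, S, -, hf⟩ := hK (n - r * (N + N)) (k - r * N) (by omega)
    (by rw [mul_add]; omega)
  obtain ⟨S1⟩ := S.toD
  have S2 := S1.lifts N r
  rw [show n - r * (N + N) + r * (N + N) = n by rw [mul_add]; omega,
    show ((k - r * N : ℕ) : ℤ) + r * N = k by rw [Nat.cast_sub (by omega)]; push_cast; ring] at S2
  obtain ⟨S2⟩ := S2
  obtain ⟨S3, h3⟩ := S2.distinct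
  refine ⟨_, S3, h3, ?_⟩
  have d1 : (k:ℝ) / 2 ≤ ((k - r * N : ℕ) : ℝ) := by
    have : k ≤ 2 * (k - r * N) := by omega
    have : (k:ℝ) ≤ 2 * ((k - r * N : ℕ) : ℝ) := by exact_mod_cast this
    linarith
  have d2 : (n:ℝ) ≤ 2 * ((n - r * (N + N) : ℕ) : ℝ) := by
    have : n ≤ 2 * (n - r * (N + N)) := by rw [mul_add]; omega
    exact_mod_cast this
  have d3 : (k:ℝ) ^ r ≤ (2 * (r + 1)) ^ r * ((N:ℝ) + 1) ^ r := by
    rw [← mul_pow]
    have : (k:ℝ) ≤ 2 * (r + 1) * (N + 1) := by exact_mod_cast c2.le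
    gcongr
  have d4 := hk1 k b1 _ d1
  push_cast
  calc (n:ℝ) * (k:ℝ) ^ r * Real.exp (Real.log k ^ (2 / 3 : ℝ) / 9)
      ≤ (2 * ((n - r * (N + N) : ℕ) : ℝ)) * ((2 * (r + 1)) ^ r * ((N:ℝ) + 1) ^ r)
        * Real.exp (Real.log k ^ (2 / 3 : ℝ) / 9) := by gcongr
    _ = ((N:ℝ) + 1) ^ r * (((n - r * (N + N) : ℕ) : ℝ) * (2 * (2 * (r + 1)) ^ r
        * Real.exp (Real.log k ^ (2 / 3 : ℝ) / 9))) := by ring
    _ ≤ ((N:ℝ) + 1) ^ r * (((n - r * (N + N) : ℕ) : ℝ)
        * Real.exp (Real.log ((k - r * N : ℕ) : ℝ) ^ (2 / 3 : ℝ) / 8)) := by gcongr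
    _ ≤ _ := by gcongr

end Pool.Agent.P.MP_77a832_co
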